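import Mathlib

/-!
# The chordal metric on the Riemann sphere
-/

open Complex Filter Topology Set Metric
open scoped OnePoint

namespace Pool.Agent.Q163.CM

/-- The chordal metric on `Ĉ = ℂ ∪ {∞}`. -/
noncomputable def chi : OnePoint ℂ → OnePoint ℂ → ℝ
  | none, none => 0
  | none, some b => 1 / √(1 + ‖b‖ ^ 2)
  | some a, none => 1 / √(1 + ‖a‖ ^ 2)
  | some a, some b => ‖a - b‖ / (√(1 + ‖a‖ ^ 2) * √(1 + ‖b‖ ^ 2))

/-- the finite part -/
noncomputable def toC : OnePoint ℂ → ℂ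
  | none => 0
  | some a => a

/-- `|x|²/(1+|x|²)` -/
noncomputable def vv : OnePoint ℂ → ℝ
  | none => 1
  | some a => ‖a‖ ^ 2 / (1 + ‖a‖ ^ 2)

/-- `x/(1+|x|²)` -/
noncomputable def uu : OnePoint ℂ → ℂ
  | none => 0
  | some a => a / ((1 + ‖a‖ ^ 2 : ℝ) : ℂ)

@[simp] lemma toC_infty : toC ∞ = 0 := rfl
@[simp] lemma toC_coe (a : ℂ) : toC (a : OnePoint ℂ) = a := rfl
@[simp] lemma vv_infty : vv ∞ = 1 := rfl
@[simp] lemma vv_coe (a : ℂ) : vv (a : OnePoint ℂ) = ‖a‖ ^ 2 / (1 + ‖a‖ ^ 2) := rfl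
@[simp] lemma uu_infty : uu ∞ = 0 := rfl
@[simp] lemma uu_coe (a : ℂ) : uu (a : OnePoint ℂ) = a / ((1 + ‖a‖ ^ 2 : ℝ) : ℂ) := rfl
lemma chi_ii : chi ∞ ∞ = 0 := rfl
lemma chi_ic (b : ℂ) : chi ∞ b = 1 / √(1 + ‖b‖ ^ 2) := rfl
lemma chi_ci (a : ℂ) : chi a ∞ = 1 / √(1 + ‖a‖ ^ 2) := rfl
lemma chi_cc (a b : ℂ) : chi a b = ‖a - b‖ / (√(1 + ‖a‖ ^ 2) * √(1 + ‖b‖ ^ 2)) := rfl

lemma chi_nonneg (x y : OnePoint ℂ) : 0 ≤ chi x y := by
  induction x using OnePoint.rec <;> induction y using OnePoint.rec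
  · rw [chi_ii]
  · rw [chi_ic]; positivity
  · rw [chi_ci]; positivity
  · rw [chi_cc]; positivity

lemma chi_symm (x y : OnePoint ℂ) : chi x y = chi y x := by
  induction x using OnePoint.rec <;> induction y using OnePoint.rec
  · rfl
  · rw [chi_ic, chi_ci]
  · rw [chi_ic, chi_ci]
  · rw [chi_cc, chi_cc, norm_sub_rev, mul_comm]

lemma chi_self (x : OnePoint ℂ) : chi x x = 0 := by
  induction x using OnePoint.rec
  · rfl
  · rw [chi_cc]; simp

/-- the embedding into `ℂ × ℝ` with the Euclidean norm -/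
noncomputable def sg (x : OnePoint ℂ) : WithLp 2 (ℂ × ℝ) := WithLp.toLp 2 (uu x, vv x)

lemma chi_sq (x y : OnePoint ℂ) : chi x y ^ 2 = ‖uu x - uu y‖ ^ 2 + (vv x - vv y) ^ 2 := by
  induction x using OnePoint.rec with
  | infty =>
    induction y using OnePoint.rec with
    | infty => rw [chi_ii]; simp
    | coe b =>
      rw [chi_ic, uu_infty, vv_infty, uu_coe, vv_coe, zero_sub, norm_neg, norm_div, Complex.norm_real,
        div_pow, div_pow, one_pow, Real.sq_sqrt (by positivity), Real.norm_eq_abs, sq_abs]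
      have : 0 < 1 + ‖b‖ ^ 2 := by positivity
      field_simp
      ring
  | coe a =>
    induction y using OnePoint.rec with
    | infty =>
      rw [chi_ci, uu_infty, vv_infty, uu_coe, vv_coe, sub_zero, norm_div, Complex.norm_real,
        div_pow, div_pow, one_pow, Real.sq_sqrt (by positivity), Real.norm_eq_abs, sq_abs]
      have : 0 < 1 + ‖a‖ ^ 2 := by positivity
      field_simp
      ring
    | coe b =>
      rw [chi_cc, uu_coe, uu_coe, vv_coe, vv_coe, div_pow, mul_pow, Real.sq_sqrt (by positivity),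
        Real.sq_sqrt (by positivity)]
      have hA : 0 < 1 + ‖a‖ ^ 2 := by positivity
      have hB : 0 < 1 + ‖b‖ ^ 2 := by positivity
      have e1 : ‖a / ((1 + ‖a‖ ^ 2 : ℝ) : ℂ) - b / ((1 + ‖b‖ ^ 2 : ℝ) : ℂ)‖ ^ 2 =
          ‖((1 + ‖b‖ ^ 2 : ℝ) : ℂ) * a - ((1 + ‖a‖ ^ 2 : ℝ) : ℂ) * b‖ ^ 2 /
            ((1 + ‖a‖ ^ 2) * (1 + ‖b‖ ^ 2)) ^ 2 := by
        have hA' : ((1 + ‖a‖ ^ 2 : ℝ) : ℂ) ≠ 0 := by exact_mod_cast hA.ne'
        have hB' : ((1 + ‖b‖ ^ 2 : ℝ) : ℂ) ≠ 0 := by exact_mod_cast hB.ne'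
        have : a / ((1 + ‖a‖ ^ 2 : ℝ) : ℂ) - b / ((1 + ‖b‖ ^ 2 : ℝ) : ℂ) =
            (((1 + ‖b‖ ^ 2 : ℝ) : ℂ) * a - ((1 + ‖a‖ ^ 2 : ℝ) : ℂ) * b) /
              (((1 + ‖a‖ ^ 2) * (1 + ‖b‖ ^ 2) : ℝ) : ℂ) := by
          rw [div_sub_div _ _ hA' hB']
          push_cast
          ring
        rw [this, norm_div, div_pow, Complex.norm_real, Real.norm_eq_abs, sq_abs]
      rw [e1]
      have n1 : ‖a‖ ^ 2 = a.re ^ 2 + a.im ^ 2 := by
        rw [← Complex.normSq_eq_norm_sq, Complex.normSq_apply]; ring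
      have n2 : ‖b‖ ^ 2 = b.re ^ 2 + b.im ^ 2 := by
        rw [← Complex.normSq_eq_norm_sq, Complex.normSq_apply]; ring
      have n3 : ‖a - b‖ ^ 2 = (a.re - b.re) ^ 2 + (a.im - b.im) ^ 2 := by
        rw [← Complex.normSq_eq_norm_sq, Complex.normSq_apply]; simp; ring
      have n4 : ‖((1 + ‖b‖ ^ 2 : ℝ) : ℂ) * a - ((1 + ‖a‖ ^ 2 : ℝ) : ℂ) * b‖ ^ 2 =
          ((1 + ‖b‖ ^ 2) * a.re - (1 + ‖a‖ ^ 2) * b.re) ^ 2 +
          ((1 + ‖b‖ ^ 2) * a.im - (1 + ‖a‖ ^ 2) * b.im) ^ 2 := by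
        rw [← Complex.normSq_eq_norm_sq, Complex.normSq_apply]
        rw [Complex.sub_re, Complex.sub_im, Complex.re_ofReal_mul, Complex.re_ofReal_mul,
          Complex.im_ofReal_mul, Complex.im_ofReal_mul]
        ring
      rw [n4, n3]
      rw [div_sub_div _ _ hA.ne' hB.ne', div_pow, ← add_div, div_eq_div_iff (by positivity)
        (by positivity)]
      rw [n1, n2]
      ring

lemma chi_eq_dist (x y : OnePoint ℂ) : chi x y = dist (sg x) (sg y) := by
  rw [WithLp.prod_dist_eq_of_L2]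
  rw [← Real.sqrt_sq (chi_nonneg x y), chi_sq, dist_eq_norm, Real.dist_eq, sq_abs]
  rfl

lemma chi_triangle (x y z : OnePoint ℂ) : chi x z ≤ chi x y + chi y z := by
  rw [chi_eq_dist, chi_eq_dist, chi_eq_dist]
  exact dist_triangle _ _ _

lemma chi_le_norm (a b : ℂ) : chi a b ≤ ‖a - b‖ := by
  rw [chi_cc]
  apply div_le_self (norm_nonneg _)
  have h1 : 1 ≤ √(1 + ‖a‖ ^ 2) := by
    rw [Real.one_le_sqrt]; nlinarith [norm_nonneg a, sq_nonneg ‖a‖]
  have h2 : 1 ≤ √(1 + ‖b‖ ^ 2) := by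
    rw [Real.one_le_sqrt]; nlinarith [norm_nonneg b, sq_nonneg ‖b‖]
  nlinarith

/-- chordal distance is at most the distance of the inverses -/
lemma chi_le_inv (a : ℂ) (x : OnePoint ℂ) (ha : a ≠ 0) (hx : x ≠ ((0 : ℂ) : OnePoint ℂ)) :
    chi a x ≤ ‖a⁻¹ - (toC x)⁻¹‖ := by
  have ha0 : 0 < ‖a‖ := norm_pos_iff.2 ha
  have h1 : ‖a‖ ≤ √(1 + ‖a‖ ^ 2) := by
    apply Real.le_sqrt_of_sq_le; linarith
  induction x using OnePoint.rec with
  | infty =>
    rw [chi_ci, toC_infty, inv_zero, sub_zero, norm_inv, ← one_div]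
    exact one_div_le_one_div_of_le ha0 h1
  | coe b =>
    have hb : b ≠ 0 := by
      intro h
      apply hx
      rw [h]
    have hb0 : 0 < ‖b‖ := norm_pos_iff.2 hb
    have h2 : ‖b‖ ≤ √(1 + ‖b‖ ^ 2) := by
      apply Real.le_sqrt_of_sq_le; linarith
    rw [chi_cc, toC_coe]
    have e : a⁻¹ - b⁻¹ = -(a - b) / (a * b) := by
      field_simp
      ring
    rw [e, norm_div, norm_neg, norm_mul]
    apply div_le_div_of_nonneg_left (norm_nonneg _) (by positivity)
    exact mul_le_mul h1 h2 hb0.le (Real.sqrt_nonneg _)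

/-! ### continuity -/

lemma continuous_vv : Continuous vv := by
  rw [continuous_iff_continuousAt]
  intro x
  induction x using OnePoint.rec with
  | infty =>
    rw [OnePoint.continuousAt_infty']
    have h : Tendsto (fun a : ℂ => 1 - (1 + ‖a‖ ^ 2)⁻¹) (coclosedCompact ℂ) (𝓝 (1 - 0)) := by
      rw [coclosedCompact_eq_cocompact]
      apply Tendsto.const_sub
      apply tendsto_inv_atTop_zero.comp
      apply tendsto_atTop_add_const_left
      exact (tendsto_pow_atTop (by norm_num)).comp tendsto_norm_cocompact_atTop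
    rw [sub_zero] at h
    rw [vv_infty]
    refine h.congr fun a => ?_
    have : 0 < 1 + ‖a‖ ^ 2 := by positivity
    show _ = vv (a : OnePoint ℂ)
    rw [vv_coe]
    field_simp
    ring
  | coe a =>
    rw [OnePoint.continuousAt_coe]
    have : Continuous fun a : ℂ => ‖a‖ ^ 2 / (1 + ‖a‖ ^ 2) := by
      apply Continuous.div (by fun_prop) (by fun_prop)
      intro x; positivity
    exact this.continuousAt

lemma continuous_uu : Continuous uu := by
  rw [continuous_iff_continuousAt]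
  intro x
  induction x using OnePoint.rec with
  | infty =>
    rw [OnePoint.continuousAt_infty']
    have h : Tendsto (fun a : ℂ => ‖a‖⁻¹) (coclosedCompact ℂ) (𝓝 0) := by
      rw [coclosedCompact_eq_cocompact]
      exact tendsto_inv_atTop_zero.comp tendsto_norm_cocompact_atTop
    rw [uu_infty]
    refine squeeze_zero_norm (fun a => ?_) h
    show ‖uu (a : OnePoint ℂ)‖ ≤ _
    rw [uu_coe, norm_div, Complex.norm_real, Real.norm_eq_abs, abs_of_pos (by positivity)]
    rcases (norm_nonneg a).eq_or_lt with h0 | h0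
    · rw [← h0]; simp
    · rw [inv_eq_one_div, div_le_div_iff₀ (by positivity) h0]
      nlinarith
  | coe a =>
    rw [OnePoint.continuousAt_coe]
    have : Continuous fun a : ℂ => a / ((1 + ‖a‖ ^ 2 : ℝ) : ℂ) := by
      apply Continuous.div (by fun_prop) (by fun_prop)
      intro x
      have : 0 < 1 + ‖x‖ ^ 2 := by positivity
      exact_mod_cast this.ne'
    exact this.continuousAt

lemma vv_le_one (x : OnePoint ℂ) : vv x ≤ 1 := by
  induction x using OnePoint.rec with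
  | infty => rw [vv_infty]
  | coe a =>
    rw [vv_coe, div_le_one (by positivity)]
    linarith

lemma vv_nonneg (x : OnePoint ℂ) : 0 ≤ vv x := by
  induction x using OnePoint.rec with
  | infty => rw [vv_infty]; norm_num
  | coe a => rw [vv_coe]; positivity

lemma vv_lt_one {x : OnePoint ℂ} (h : x ≠ ∞) : vv x < 1 := by
  induction x using OnePoint.rec with
  | infty => exact absurd rfl h
  | coe a =>
    rw [vv_coe, div_lt_one (by positivity)]
    linarith

lemma ne_infty_of_vv {x : OnePoint ℂ} (h : vv x < 1) : x ≠ ∞ := by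
  intro h'
  rw [h', vv_infty] at h
  exact lt_irrefl _ h

lemma eq_coe_toC {x : OnePoint ℂ} (h : x ≠ ∞) : x = (toC x : OnePoint ℂ) := by
  induction x using OnePoint.rec with
  | infty => exact absurd rfl h
  | coe a => rfl

/-- `toC` is continuous off `∞` -/
lemma toC_contAt {x : OnePoint ℂ} (h : x ≠ ∞) : ContinuousAt toC x := by
  induction x using OnePoint.rec with
  | infty => exact absurd rfl h
  | coe a =>
    rw [OnePoint.continuousAt_coe]
    exact continuousAt_id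

/-- `1/toC` is continuous off `0` -/
lemma inv_contAt {x : OnePoint ℂ} (h : x ≠ ((0 : ℂ) : OnePoint ℂ)) :
    ContinuousAt (fun y => (toC y)⁻¹) x := by
  induction x using OnePoint.rec with
  | infty =>
    rw [OnePoint.continuousAt_infty']
    rw [coclosedCompact_eq_cocompact, toC_infty, inv_zero]
    rw [← Metric.cobounded_eq_cocompact]
    exact tendsto_inv₀_cobounded
  | coe a =>
    rw [OnePoint.continuousAt_coe]
    have ha : a ≠ 0 := by
      intro h'
      apply h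
      rw [h']
    exact continuousAt_inv₀ ha

lemma vv_toC {x : OnePoint ℂ} (h : vv x < 1) : ‖toC x‖ ^ 2 * (1 - vv x) = vv x := by
  induction x using OnePoint.rec with
  | infty => rw [vv_infty] at h; exact absurd h (lt_irrefl _)
  | coe a =>
    rw [vv_coe, toC_coe]
    have : 0 < 1 + ‖a‖ ^ 2 := by positivity
    field_simp
    ring

end Pool.Agent.Q163.CM
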