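import Pool.Agent.Helper240.ZFM.Defs
import Pool.Agent.Helper240.ZFM.Aux4
import Pool.Agent.Helper240.ZFM.C1
import Pool.Agent.Helper240.ZFM.C2
import Pool.Agent.Helper240.ZFM.C5
import Pool.Agent.Helper240.ZFM.C7
import Pool.Agent.Helper240.ZFM.N2
import Pool.Agent.Helper240.ZFM.N3

/-!
# Zero-free approximation when some components carry the zero function

Variants of `ZFM.zero_escape`, `ZFM.log_nbhd`, `ZFM.main_small`, `ZFM.zero_free_of_approx`, with the
hypothesis that on every component of the interior the function is either identically zero or has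
no zeros.
-/

open Complex Filter Topology Set Metric

namespace Pool.Agent.Q163.CM

open ZFM

/-- on every component of the interior `f` is identically zero or has no zeros -/
def NZ (K : Set ℂ) (f : ℂ → ℂ) : Prop :=
  ∀ z ∈ interior K, f z = 0 → ∀ w ∈ connectedComponentIn (interior K) z, f w = 0

/-- A zero of an approximating polynomial can escape from `K` inside `{|P| < δ}`. -/
theorem zero_escape2 {K : Set ℂ} (hK : IsCompact K) (f : ℂ → ℂ) (hf : ContinuousOn f K)
    (hol : DifferentiableOn ℂ f (interior K)) (hnz : NZ K f)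
    (P : Polynomial ℂ) (δ : ℝ) (hδ : 0 < δ) (hPf : ∀ z ∈ K, ‖P.eval z - f z‖ ≤ δ / 4)
    (a : ℂ) (ha : a ∈ K) (h0 : P.eval a = 0) :
    ∃ ζ, ζ ∉ K ∧ ζ ∈ connectedComponentIn {z : ℂ | ‖P.eval z‖ < δ} a := by
  by_contra hcon
  push Not at hcon
  obtain ⟨O, hO⟩ : ∃ O : Set ℂ, O = {z : ℂ | ‖P.eval z‖ < δ} := ⟨_, rfl⟩
  rw [← hO] at hcon
  have hOmem : ∀ z, z ∈ O ↔ ‖P.eval z‖ < δ := by
    intro z; rw [hO]; exact Iff.rfl
  have hPc : Continuous fun z => P.eval z := P.continuous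
  have hOo : IsOpen O := by
    rw [hO]
    exact isOpen_lt hPc.norm continuous_const
  have haO : a ∈ O := by
    rw [hOmem, h0, norm_zero]
    exact hδ
  obtain ⟨V, hV⟩ : ∃ V : Set ℂ, V = connectedComponentIn O a := ⟨_, rfl⟩
  rw [← hV] at hcon
  have hVo : IsOpen V := by rw [hV]; exact hOo.connectedComponentIn
  have haV : a ∈ V := by rw [hV]; exact mem_connectedComponentIn haO
  have hVO : V ⊆ O := by rw [hV]; exact connectedComponentIn_subset O a
  have hVc : IsPreconnected V := by rw [hV]; exact isPreconnected_connectedComponentIn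
  have hVK : V ⊆ K := by
    intro z hz
    by_contra h
    exact hcon z h hz
  have hVi : V ⊆ interior K := interior_maximal hVK hVo
  have hclK : closure V ⊆ K := closure_minimal hVK hK.isClosed
  have hbd : Bornology.IsBounded V := hK.isBounded.subset hVK
  have hfr : ∀ z ∈ frontier V, δ ≤ ‖P.eval z‖ := by
    intro z hz
    by_contra hlt
    push Not at hlt
    have hzcl : z ∈ closure V := frontier_subset_closure hz
    have hpre : IsPreconnected (insert z V) :=
      hVc.subset_closure (subset_insert z V) (insert_subset hzcl subset_closure)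
    have hsub : insert z V ⊆ V := by
      have h1 := hpre.subset_connectedComponentIn (mem_insert_of_mem z haV)
        (insert_subset ((hOmem z).2 hlt) hVO)
      rw [← hV] at h1
      exact h1
    have hzV : z ∈ V := hsub (mem_insert z V)
    rw [hVo.frontier_eq] at hz
    exact hz.2 hzV
  have hfr2 : ∀ z ∈ frontier V, 3 * δ / 4 ≤ ‖f z‖ := by
    intro z hz
    have h1 := hfr z hz
    have h2 := hPf z (hclK (frontier_subset_closure hz))
    have h3 := norm_sub_norm_le (P.eval z) (f z)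
    linarith
  have hfrne : (frontier V).Nonempty := by
    rw [nonempty_iff_ne_empty]
    intro he
    have hcl : IsClopen V := by
      rw [isClopen_iff_frontier_eq_empty]
      exact he
    rcases isClopen_iff.1 hcl with h | h
    · rw [h] at haV
      exact haV
    · rw [h] at hbd
      exact NormedSpace.unbounded_univ ℂ ℂ hbd
  have hfne : ∀ z ∈ closure V, f z ≠ 0 := by
    intro z hz
    by_cases hzV : z ∈ V
    · intro hz0
      have h1 := hnz z (hVi hzV) hz0
      have h2 : V ⊆ connectedComponentIn (interior K) z := hVc.subset_connectedComponentIn hzV hVi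
      have h3 : ∀ w ∈ V, f w = 0 := fun w hw => h1 w (h2 hw)
      obtain ⟨y, hy⟩ := hfrne
      have hyK : y ∈ K := hclK (frontier_subset_closure hy)
      have h4 : f y = 0 := by
        have h5 : ContinuousWithinAt f V y := (hf y hyK).mono hVK
        have h6 : y ∈ closure V := frontier_subset_closure hy
        haveI : (𝓝[V] y).NeBot := mem_closure_iff_nhdsWithin_neBot.1 h6
        have h7 : Tendsto f (𝓝[V] y) (𝓝 0) := by
          refine tendsto_const_nhds.congr' ?_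
          filter_upwards [self_mem_nhdsWithin] with w hw
          exact (h3 w hw).symm
        exact tendsto_nhds_unique h5 h7
      have h8 := hfr2 y hy
      rw [h4, norm_zero] at h8
      linarith
    · have hzf : z ∈ frontier V := by
        rw [hVo.frontier_eq]
        exact ⟨hz, hzV⟩
      have h1 := hfr2 z hzf
      intro h2
      rw [h2, norm_zero] at h1
      linarith
  have hd : DiffContOnCl ℂ (fun z => (P.eval z - f z) / f z) V := by
    refine ⟨?_, ?_⟩
    · have hfd : DifferentiableOn ℂ f V := hol.mono hVi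
      exact ((P.differentiable.differentiableOn).sub hfd).div hfd
        (fun z hz => hfne z (subset_closure hz))
    · have hfc : ContinuousOn f (closure V) := hf.mono hclK
      exact ((hPc.continuousOn).sub hfc).div hfc hfne
  have hb : ∀ z ∈ frontier V, ‖(P.eval z - f z) / f z‖ ≤ 1 / 3 := by
    intro z hz
    have h1 := hfr2 z hz
    have h2 := hPf z (hclK (frontier_subset_closure hz))
    rw [norm_div, div_le_iff₀ (by linarith)]
    linarith
  have hfin := Complex.norm_le_of_forall_mem_frontier_norm_le hbd hd hb (subset_closure haV)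
  have hfa := hfne a (subset_closure haV)
  simp only [h0] at hfin
  rw [zero_sub, neg_div, div_self hfa, norm_neg, norm_one] at hfin
  norm_num at hfin


/-- Good neighbourhoods with a logarithm. -/
theorem log_nbhd2 {K O : Set ℂ} (hK : IsCompact K) (hKc : IsConnected Kᶜ) (hO : IsOpen O)
    (hKO : K ⊆ O) (f : ℂ → ℂ) (hf : ContinuousOn f K)
    (hol : DifferentiableOn ℂ f (interior K)) (hnz : NZ K f)
    (P : Polynomial ℂ) (hP : P ≠ 0) (δ : ℝ) (hδ : 0 < δ)
    (hPf : ∀ z ∈ K, ‖P.eval z - f z‖ ≤ δ / 4) :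
    ∃ U : Set ℂ, IsOpen U ∧ K ⊆ U ∧ U ⊆ O ∧ Bornology.IsBounded U ∧
      (∀ g : ℂ → ℂ, DifferentiableOn ℂ g U → ∃ G : ℂ → ℂ, ∀ z ∈ U, HasDerivAt G (g z) z) ∧
      ∃ l : ℂ → ℂ, DifferentiableOn ℂ l (U ∩ {z : ℂ | δ < ‖P.eval z‖}) ∧
        ∀ z ∈ U ∩ {z : ℂ | δ < ‖P.eval z‖}, exp (l z) = P.eval z := by
  have hfin : {a : ℂ | P.eval a = 0}.Finite := Polynomial.finite_setOfPred_isRoot hP
  have hex : ∀ a : ℂ, a ∈ K ∧ P.eval a = 0 →
      ∃ ζ, ζ ∉ K ∧ ζ ∈ connectedComponentIn {z : ℂ | ‖P.eval z‖ < δ} a := fun a h =>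
    zero_escape2 hK f hf hol hnz P δ hδ hPf a h.1 h.2
  choose! ζ hζ using hex
  obtain ⟨S, hSdef⟩ : ∃ S : Set ℂ, S = ζ '' ({a : ℂ | P.eval a = 0} ∩ K) ∪
      ({a : ℂ | P.eval a = 0} \ K) := ⟨_, rfl⟩
  have hS : S.Finite := by
    rw [hSdef]
    exact ((hfin.subset inter_subset_left).image ζ).union (hfin.subset sdiff_subset)
  have hSK : Disjoint S K := by
    rw [Set.disjoint_left, hSdef]
    rintro x (⟨a, ⟨ha0, haK⟩, rfl⟩ | ⟨_, hx⟩)
    · exact (hζ a ⟨haK, ha0⟩).1
    · exact hx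
  obtain ⟨U, hU, hKU, hUO, hSU, hb, hg⟩ := good_nbhd hK hKc hO hKO hS hSK
  have hp : ∀ g : ℂ → ℂ, DifferentiableOn ℂ g U → ∃ G : ℂ → ℂ, ∀ z ∈ U, HasDerivAt G (g z) z :=
    fun g hgd => primitive_of_good hU hg g hgd
  refine ⟨U, hU, hKU, hUO, hb, hp, ?_⟩
  apply poly_log hU hp P hP δ
  intro a haU ha0
  have haK : a ∈ K := by
    by_contra haK
    refine Set.disjoint_left.1 hSU ?_ haU
    rw [hSdef]
    exact Or.inr ⟨ha0, haK⟩
  refine ⟨ζ a, ?_, (hζ a ⟨haK, ha0⟩).2⟩
  refine Set.disjoint_left.1 hSU ?_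
  rw [hSdef]
  exact Or.inl ⟨a, ⟨ha0, haK⟩, rfl⟩


theorem main_small_approx {K : Set ℂ} (f : ℂ → ℂ)
    (happ : ∀ ε : ℝ, 0 < ε → ∃ p : Polynomial ℂ, ∀ z ∈ K, ‖p.eval z - f z‖ < ε)
    (η : ℝ) (hη : 0 < η) : ∃ P : Polynomial ℂ, P ≠ 0 ∧ ∀ z ∈ K, ‖P.eval z - f z‖ ≤ η := by
  obtain ⟨p, hp⟩ := happ (η / 2) (by linarith)
  by_cases h0 : p = 0
  · refine ⟨Polynomial.C ((η / 2 : ℝ) : ℂ), ?_, fun z hz => ?_⟩
    · rw [Ne, Polynomial.C_eq_zero]
      exact_mod_cast (by linarith : (η / 2 : ℝ) ≠ 0)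
    · have h1 := hp z hz
      rw [h0] at h1
      simp only [Polynomial.eval_zero, zero_sub, norm_neg] at h1
      rw [Polynomial.eval_C]
      have h2 : ‖(((η / 2 : ℝ)) : ℂ)‖ = η / 2 := by
        rw [Complex.norm_real, Real.norm_of_nonneg (by linarith)]
      calc ‖(((η / 2 : ℝ)) : ℂ) - f z‖ ≤ ‖(((η / 2 : ℝ)) : ℂ)‖ + ‖f z‖ := norm_sub_le _ _
        _ ≤ η := by rw [h2]; linarith
  · exact ⟨p, h0, fun z hz => (hp z hz).le.trans (by linarith)⟩

theorem main_small_T (ε : ℝ) (hε : 0 < ε) :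
    ∃ T : ℝ, 1 ≤ T ∧ Real.exp (-(T / 20)) + Real.exp (-T) ≤ ε := by
  have h1 : Tendsto (fun T : ℝ => Real.exp (-(T / 20)) + Real.exp (-T)) atTop (𝓝 (0 + 0)) := by
    refine Tendsto.add ?_ ?_
    · exact Real.tendsto_exp_atBot.comp (tendsto_neg_atTop_atBot.comp
        (tendsto_id.atTop_div_const (by norm_num)))
    · exact Real.tendsto_exp_neg_atTop_nhds_zero
  rw [add_zero] at h1
  obtain ⟨T, hT1, hT2⟩ := ((h1.eventually_lt_const hε).and (eventually_ge_atTop 1)).exists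
  exact ⟨T, hT2, hT1.le⟩

/-- The theorem for small `K` and small `f`. -/
theorem main_small2 {K : Set ℂ} (hK : IsCompact K) (hKc : IsConnected Kᶜ) (hK1 : K ⊆ ball 0 1)
    (f : ℂ → ℂ) (hf : ContinuousOn f K) (hol : DifferentiableOn ℂ f (interior K))
    (hnz : NZ K f) (hfb : ∀ z ∈ K, ‖f z‖ ≤ 1 / 2)
    (happ : ∀ ε : ℝ, 0 < ε → ∃ p : Polynomial ℂ, ∀ z ∈ K, ‖p.eval z - f z‖ < ε)
    (ε : ℝ) (hε : 0 < ε) :
    ∃ p : Polynomial ℂ, (∀ z ∈ K, p.eval z ≠ 0) ∧ ∀ z ∈ K, ‖p.eval z - f z‖ < ε := by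
  obtain ⟨T, hT, hTε⟩ := main_small_T (ε / 4) (by linarith)
  have he3 : 0 < Real.exp (-(3 * T)) := Real.exp_pos _
  have heT : Real.exp (-T) < 1 / 2 := by
    have h1 : Real.exp (-T) ≤ Real.exp (-1) := Real.exp_le_exp.mpr (by linarith)
    have h2 : Real.exp (-1) < 1 / 2 := by
      rw [Real.exp_neg]
      have h3 : (2 : ℝ) < Real.exp 1 := by
        have := Real.exp_one_gt_d9; linarith
      have h4 : (Real.exp 1)⁻¹ < 2⁻¹ := (inv_lt_inv₀ (Real.exp_pos 1) (by norm_num)).mpr h3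
      linarith
    linarith
  have hclosed : ∀ S : Set ℂ, IsClosed S → IsCompact (K ∩ f ⁻¹' S) := fun S hS =>
    hK.of_isClosed_subset (hf.preimage_isClosed_of_isClosed hK.isClosed hS) inter_subset_left
  -- the polynomial P0
  obtain ⟨P0, hP00, hP0⟩ := main_small_approx f happ (Real.exp (-(3 * T)) / 16) (by linarith)
  obtain ⟨U0, hU0o, hKU0, hU0b, -, -, lam, hlamd, hlame⟩ := log_nbhd2 hK hKc isOpen_ball hK1 f hf
    hol hnz P0 hP00 (Real.exp (-(3 * T)) / 4) (by linarith) (fun z hz => (hP0 z hz).trans (by linarith))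
  have hP0c : Continuous fun z : ℂ => P0.eval z := P0.continuous
  have hVo : IsOpen (U0 ∩ {z : ℂ | Real.exp (-(3 * T)) / 4 < ‖P0.eval z‖}) :=
    hU0o.inter (isOpen_lt continuous_const hP0c.norm)
  have hLc : IsCompact (K ∩ f ⁻¹' {w : ℂ | Real.exp (-(3 * T)) / 2 ≤ ‖w‖}) :=
    hclosed _ (isClosed_le continuous_const continuous_norm)
  have hLV : K ∩ f ⁻¹' {w : ℂ | Real.exp (-(3 * T)) / 2 ≤ ‖w‖} ⊆
      U0 ∩ {z : ℂ | Real.exp (-(3 * T)) / 4 < ‖P0.eval z‖} := by
    rintro z ⟨hzK, hz⟩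
    refine ⟨hKU0 hzK, ?_⟩
    have h1 : Real.exp (-(3 * T)) / 2 ≤ ‖f z‖ := hz
    have h2 := hP0 z hzK
    have h3 : ‖f z‖ ≤ ‖P0.eval z‖ + ‖P0.eval z - f z‖ := by
      have := norm_sub_norm_le (f z) (P0.eval z)
      rw [norm_sub_rev] at this
      linarith
    show Real.exp (-(3 * T)) / 4 < ‖P0.eval z‖
    linarith
  obtain ⟨N, hNo, hLN, hNV, hNc⟩ := exists_open_between_and_isCompact_closure hLc hVo hLV
  obtain ⟨B, hB⟩ := hNc.exists_bound_of_continuousOn (hlamd.continuousOn.mono hNV)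
  -- the cutoff
  have hA0c : IsCompact (K ∩ f ⁻¹' {w : ℂ | ‖w‖ ≤ 3 / 2 * Real.exp (-(2 * T))}) :=
    hclosed _ (isClosed_le continuous_norm continuous_const)
  have hA1c : IsCompact (K ∩ f ⁻¹' {w : ℂ | 3 / 4 * Real.exp (-T) ≤ ‖w‖}) :=
    hclosed _ (isClosed_le continuous_const continuous_norm)
  have hdisj : Disjoint (K ∩ f ⁻¹' {w : ℂ | ‖w‖ ≤ 3 / 2 * Real.exp (-(2 * T))})
      (K ∩ f ⁻¹' {w : ℂ | 3 / 4 * Real.exp (-T) ≤ ‖w‖}) := by
    rw [Set.disjoint_left]
    rintro z ⟨_, hz0⟩ ⟨_, hz1⟩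
    have h0 : ‖f z‖ ≤ 3 / 2 * Real.exp (-(2 * T)) := hz0
    have h1 : 3 / 4 * Real.exp (-T) ≤ ‖f z‖ := hz1
    have h2 : Real.exp (-(2 * T)) = Real.exp (-T) * Real.exp (-T) := by
      rw [← Real.exp_add]; congr 1; ring
    have h3 : 0 < Real.exp (-T) := Real.exp_pos _
    rw [h2] at h0
    nlinarith
  obtain ⟨t, htd, ht0, ht1, ⟨N0, hN0o, hA0N, htN0⟩, ⟨N1, hN1o, hA1N, htN1⟩, M, hM, hMb⟩ :=
    cutoff_t _ _ hA0c hA1c hdisj
  obtain ⟨δ, hδ, hδ3, hcore⟩ := core_glued (ε / 4) T (max (3 * T) (B + 2)) M (by linarith) hT hTε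
    (le_max_left _ _) hM
  -- the polynomial P
  obtain ⟨P, hPne, hP⟩ := main_small_approx f happ
    (min (min (δ / 4) (Real.exp (-(3 * T)) / 16)) (ε / 4))
    (lt_min (lt_min (by linarith) (by linarith)) (by linarith))
  have hPδ : ∀ z ∈ K, ‖P.eval z - f z‖ ≤ δ / 4 := fun z hz =>
    (hP z hz).trans ((min_le_left _ _).trans (min_le_left _ _))
  have hP16 : ∀ z ∈ K, ‖P.eval z - f z‖ ≤ Real.exp (-(3 * T)) / 16 := fun z hz =>
    (hP z hz).trans ((min_le_left _ _).trans (min_le_right _ _))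
  have hPε : ∀ z ∈ K, ‖P.eval z - f z‖ ≤ ε / 4 := fun z hz =>
    (hP z hz).trans (min_le_right _ _)
  obtain ⟨O, hOo, hKO, hOb, hO⟩ := nbhd_O hK hK1 f hfb T hT P P0 hP16 hP0 t N0 N1 N hN0o hN1o hNo
    (fun z hz h => hA0N ⟨hz, h⟩) (fun z hz h => hA1N ⟨hz, h⟩) (fun z hz h => hLN ⟨hz, h⟩)
    htN0 htN1
  obtain ⟨U, hUo, hKU, hUO, -, hprim, l, hld, hle⟩ := log_nbhd2 hK hKc hOo hKO f hf hol hnz P hPne
    δ hδ hPδ
  have hPc : Continuous fun z : ℂ => P.eval z := P.continuous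
  have hWo : IsOpen (U ∩ {z : ℂ | Real.exp (-(3 * T)) < ‖P.eval z‖}) :=
    hUo.inter (isOpen_lt continuous_const hPc.norm)
  have hWN : U ∩ {z : ℂ | Real.exp (-(3 * T)) < ‖P.eval z‖} ⊆ N := fun z hz =>
    ((hO z (hUO hz.1)).2.2.2 hz.2).1
  have hWV : U ∩ {z : ℂ | Real.exp (-(3 * T)) < ‖P.eval z‖} ⊆
      U0 ∩ {z : ℂ | Real.exp (-(3 * T)) / 4 < ‖P0.eval z‖} := fun z hz =>
    hNV (subset_closure (hWN hz))
  obtain ⟨l0, hl0d, hl0e, hl0b⟩ := bounded_log N
    (U ∩ {z : ℂ | Real.exp (-(3 * T)) < ‖P.eval z‖}) (fun z => P.eval z) (fun z => P0.eval z)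
    lam B hWN hWo P.differentiable.differentiableOn P0.differentiable.differentiableOn
    (hlamd.mono hWV) (fun z hz => hlame z (hWV hz)) (fun z hz => hB z (subset_closure hz))
    (fun z hz => ((hO z (hUO hz.1)).2.2.2 hz.2).2)
  have hUD : UData T (max (3 * T) (B + 2)) M δ U (fun z => P.eval z) t l0 l :=
    { Uo := hUo
      Ub := hUO.trans hOb
      prim := hprim
      Pd := P.differentiable.differentiableOn
      Pb := fun z hz => (hO z (hUO hz)).1
      td := htd
      t0 := ht0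
      t1 := ht1
      tM1 := fun z hz => (hMb z hz).1
      tM2 := fun z hz => (hMb z hz).2
      tF1 := fun z hz => (hO z (hUO hz)).2.1
      tF0 := fun z hz => (hO z (hUO hz)).2.2.1
      l0d := hl0d
      l0e := hl0e
      l0R := fun z hz => (hl0b z hz).trans (le_max_right _ _)
      ld := hld
      le := hle }
  obtain ⟨H, hHd, hHe⟩ := hcore U K (fun z => P.eval z) t l0 l hUD hK hKU
  obtain ⟨p, hp0, hpe⟩ := exp_poly hK hKc hUo hKU H hHd (ε / 4) (by linarith)
  refine ⟨p, hp0, fun z hz => ?_⟩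
  have h1 := hpe z hz
  have h2 : ‖exp (H z) - P.eval z‖ ≤ ε / 4 := hHe z hz
  have h3 := hPε z hz
  have e : p.eval z - f z = -(exp (H z) - p.eval z) + ((exp (H z) - P.eval z) + (P.eval z - f z)) := by
    ring
  rw [e]
  calc _ ≤ ‖-(exp (H z) - p.eval z)‖ + ‖(exp (H z) - P.eval z) + (P.eval z - f z)‖ := norm_add_le _ _
    _ ≤ ‖exp (H z) - p.eval z‖ + (‖exp (H z) - P.eval z‖ + ‖P.eval z - f z‖) := by
        rw [norm_neg]
        exact add_le_add le_rfl (norm_add_le _ _)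
    _ < ε := by linarith


/-- Zero-free approximation; the normalisations are removed by scaling. -/
theorem zero_free_of_approx2 {K : Set ℂ} (hK : IsCompact K) (hKc : IsConnected Kᶜ)
    (f : ℂ → ℂ) (hf : ContinuousOn f K) (hol : DifferentiableOn ℂ f (interior K))
    (hnz : NZ K f)
    (happ : ∀ ε : ℝ, 0 < ε → ∃ p : Polynomial ℂ, ∀ z ∈ K, ‖p.eval z - f z‖ < ε)
    (ε : ℝ) (hε : 0 < ε) :
    ∃ p : Polynomial ℂ, (∀ z ∈ K, p.eval z ≠ 0) ∧ ∀ z ∈ K, ‖p.eval z - f z‖ < ε := by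
  obtain ⟨r, hr0, hKr⟩ : ∃ r : ℝ, 0 < r ∧ K ⊆ ball 0 r := by
    obtain ⟨r, hr⟩ := hK.isBounded.subset_ball 0
    exact ⟨max r 1, lt_of_lt_of_le one_pos (le_max_right _ _),
      hr.trans (ball_subset_ball (le_max_left _ _))⟩
  obtain ⟨C, hC⟩ := hK.exists_bound_of_continuousOn hf
  obtain ⟨B, hB0, hB⟩ : ∃ B : ℝ, 0 < B ∧ ∀ z ∈ K, ‖f z‖ ≤ B :=
    ⟨max C 1, lt_of_lt_of_le one_pos (le_max_right _ _), fun z hz =>
      (hC z hz).trans (le_max_left _ _)⟩
  have hrc : (r : ℂ) ≠ 0 := by exact_mod_cast hr0.ne'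
  have hBc : ((2 * B : ℝ) : ℂ) ≠ 0 := by
    have : (2 * B : ℝ) ≠ 0 := by positivity
    exact_mod_cast this
  have hBn : ‖((2 * B : ℝ) : ℂ)‖ = 2 * B := by
    rw [Complex.norm_real, Real.norm_of_nonneg (by positivity)]
  set s : ℂ ≃ₜ ℂ := Homeomorph.mulLeft₀ (r : ℂ) hrc with hs
  have hsz : ∀ z, s z = r * z := fun z => rfl
  have hmem : ∀ z ∈ K, (r : ℂ)⁻¹ * z ∈ s ⁻¹' K := by
    intro z hz
    show s _ ∈ K
    rw [hsz, mul_inv_cancel_left₀ hrc]
    exact hz
  obtain ⟨p, hp0, hp⟩ := main_small2 (K := s ⁻¹' K)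
    (s.isCompact_preimage.2 hK)
    (by
      rw [← Set.preimage_compl]
      exact s.isConnected_preimage.2 hKc)
    (by
      intro z hz
      have h1 := hKr hz
      rw [mem_ball_zero_iff, hsz, norm_mul, Complex.norm_real, Real.norm_of_nonneg hr0.le] at h1
      rw [mem_ball_zero_iff]
      by_contra hcon
      push Not at hcon
      have := mul_le_mul_of_nonneg_left hcon hr0.le
      linarith)
    (fun z => f (s z) / ((2 * B : ℝ) : ℂ))
    (by
      refine ContinuousOn.div_const ?_ _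
      exact hf.comp s.continuous.continuousOn (fun z hz => hz))
    (by
      rw [← s.preimage_interior]
      refine DifferentiableOn.div_const ?_ _
      refine hol.comp (g := f) (f := fun z => s z) ?_ (fun z hz => hz)
      intro z _
      exact ((differentiable_id.const_mul (r : ℂ)) z).differentiableWithinAt)
    (by
      intro z hz hz0 w hw
      have hz0' : f (s z) = 0 := by
        rcases div_eq_zero_iff.1 hz0 with h | h
        · exact h
        · exact absurd h hBc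
      rw [← s.preimage_interior] at hz hw
      have h1 : s '' (connectedComponentIn (s ⁻¹' interior K) z) ⊆
          connectedComponentIn (interior K) (s z) := by
        apply IsPreconnected.subset_connectedComponentIn
        · exact isPreconnected_connectedComponentIn.image _ s.continuous.continuousOn
        · exact ⟨z, mem_connectedComponentIn hz, rfl⟩
        · rintro _ ⟨y, hy, rfl⟩
          have h3 : y ∈ s ⁻¹' interior K := connectedComponentIn_subset _ _ hy
          exact h3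
      have h2 : f (s w) = 0 := hnz _ hz hz0' _ (h1 ⟨w, hw, rfl⟩)
      show f (s w) / ((2 * B : ℝ) : ℂ) = 0
      rw [h2, zero_div])
    (by
      intro z hz
      rw [norm_div, hBn, div_le_iff₀ (by positivity)]
      have := hB _ hz
      linarith)
    (by
      intro ε' hε'
      obtain ⟨p, hp⟩ := happ (ε' * (2 * B)) (by positivity)
      refine ⟨Polynomial.C (((2 * B : ℝ) : ℂ)⁻¹) * p.comp (Polynomial.C (r : ℂ) * Polynomial.X),
        fun z hz => ?_⟩
      have h1 := hp _ hz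
      rw [Polynomial.eval_mul, Polynomial.eval_C, Polynomial.eval_comp, Polynomial.eval_mul,
        Polynomial.eval_C, Polynomial.eval_X]
      have h2 : (((2 * B : ℝ) : ℂ))⁻¹ * Polynomial.eval (r * z) p - f (s z) / ((2 * B : ℝ) : ℂ)
          = (Polynomial.eval (s z) p - f (s z)) / ((2 * B : ℝ) : ℂ) := by
        rw [hsz]
        field_simp
      rw [h2, norm_div, hBn, div_lt_iff₀ (by positivity)]
      exact h1)
    (ε / (2 * B)) (by positivity)
  refine ⟨Polynomial.C ((2 * B : ℝ) : ℂ) * p.comp (Polynomial.C (r : ℂ)⁻¹ * Polynomial.X),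
    fun z hz => ?_, fun z hz => ?_⟩
  · rw [Polynomial.eval_mul, Polynomial.eval_C, Polynomial.eval_comp, Polynomial.eval_mul,
      Polynomial.eval_C, Polynomial.eval_X]
    exact mul_ne_zero hBc (hp0 _ (hmem z hz))
  · rw [Polynomial.eval_mul, Polynomial.eval_C, Polynomial.eval_comp, Polynomial.eval_mul,
      Polynomial.eval_C, Polynomial.eval_X]
    have h1 := hp _ (hmem z hz)
    simp only [hsz] at h1
    rw [mul_inv_cancel_left₀ hrc] at h1
    have h2 : ((2 * B : ℝ) : ℂ) * Polynomial.eval ((r : ℂ)⁻¹ * z) p - f z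
        = ((2 * B : ℝ) : ℂ) * (Polynomial.eval ((r : ℂ)⁻¹ * z) p - f z / ((2 * B : ℝ) : ℂ)) := by
      field_simp
    rw [h2, norm_mul, hBn]
    rw [lt_div_iff₀ (by positivity)] at h1
    linarith



end Pool.Agent.Q163.CM
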