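import Pool.Agent.Q163.CM.Chi
import Pool.Agent.Q163.CM.ZF
import Pool.Agent.Helper240.ZFM.Q5b

/-!
# The two sets `{|f| ≤ A}` and `{|f| ≥ a}`
-/

open Complex Filter Topology Set Metric
open scoped OnePoint Polynomial

namespace Pool.Agent.Q163.CM

/-- The class `M(L)`: continuous on `L`, and on every component of the interior of `L` either
constantly `∞` or finite and holomorphic. -/
def InM (L : Set ℂ) (f : ℂ → OnePoint ℂ) : Prop :=
  ContinuousOn f L ∧ ∀ z ∈ interior L,
    (∀ w ∈ connectedComponentIn (interior L) z, f w = ∞) ∨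
    (∃ g : ℂ → ℂ, DifferentiableOn ℂ g (connectedComponentIn (interior L) z) ∧
      ∀ w ∈ connectedComponentIn (interior L) z, f w = (g w : OnePoint ℂ))

variable {L : Set ℂ} {f : ℂ → OnePoint ℂ}

lemma InM.finite_on (hf : InM L f) {z : ℂ} (hz : z ∈ interior L) (hfz : f z ≠ ∞) :
    ∃ g : ℂ → ℂ, DifferentiableOn ℂ g (connectedComponentIn (interior L) z) ∧
      ∀ w ∈ connectedComponentIn (interior L) z, f w = (g w : OnePoint ℂ) := by
  rcases hf.2 z hz with h | h
  · exact absurd (h z (mem_connectedComponentIn hz)) hfz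
  · exact h

lemma InM.infty_on (hf : InM L f) {z : ℂ} (hz : z ∈ interior L) (hfz : f z = ∞) :
    ∀ w ∈ connectedComponentIn (interior L) z, f w = ∞ := by
  rcases hf.2 z hz with h | ⟨g, _, hg⟩
  · exact h
  · have := hg z (mem_connectedComponentIn hz)
    rw [hfz] at this
    exact absurd this (OnePoint.infty_ne_coe _)

lemma InM.ne_infty_on (hf : InM L f) {z : ℂ} (hz : z ∈ interior L) (hfz : f z ≠ ∞) :
    ∀ w ∈ connectedComponentIn (interior L) z, f w ≠ ∞ := by
  obtain ⟨g, _, hg⟩ := hf.finite_on hz hfz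
  intro w hw
  rw [hg w hw]
  exact OnePoint.coe_ne_infty _

lemma comp_nhds {z : ℂ} (hz : z ∈ interior L) :
    connectedComponentIn (interior L) z ∈ 𝓝 z :=
  (isOpen_interior.connectedComponentIn).mem_nhds (mem_connectedComponentIn hz)

lemma InM.diffAt (hf : InM L f) {z : ℂ} (hz : z ∈ interior L) (hfz : f z ≠ ∞) :
    DifferentiableAt ℂ (fun w => toC (f w)) z := by
  obtain ⟨g, hgd, hg⟩ := hf.finite_on hz hfz
  have h1 : DifferentiableAt ℂ g z := hgd.differentiableAt (comp_nhds hz)
  refine h1.congr_of_eventuallyEq ?_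
  filter_upwards [comp_nhds hz] with w hw
  rw [hg w hw, toC_coe]

lemma InM.inv_diffAt (hf : InM L f) {z : ℂ} (hz : z ∈ interior L)
    (hfz : f z ≠ ((0 : ℂ) : OnePoint ℂ)) :
    DifferentiableAt ℂ (fun w => (toC (f w))⁻¹) z := by
  by_cases hi : f z = ∞
  · refine (differentiableAt_const (0 : ℂ)).congr_of_eventuallyEq ?_
    filter_upwards [comp_nhds hz] with w hw
    rw [hf.infty_on hz hi w hw, toC_infty, inv_zero]
  · refine (hf.diffAt hz hi).inv ?_
    intro h
    apply hfz
    rw [eq_coe_toC hi, h]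

lemma InM.vcont (hf : InM L f) : ContinuousOn (fun z => vv (f z)) L :=
  continuous_vv.comp_continuousOn hf.1

lemma InM.contWithin (hf : InM L f) {z : ℂ} (hz : z ∈ L) (hfz : f z ≠ ∞) :
    ContinuousWithinAt (fun w => toC (f w)) L z :=
  (toC_contAt hfz).comp_continuousWithinAt (hf.1 z hz)

lemma InM.inv_contWithin (hf : InM L f) {z : ℂ} (hz : z ∈ L)
    (hfz : f z ≠ ((0 : ℂ) : OnePoint ℂ)) :
    ContinuousWithinAt (fun w => (toC (f w))⁻¹) L z :=
  (inv_contAt hfz).comp_continuousWithinAt (hf.1 z hz)

lemma vv_le_iff {x : OnePoint ℂ} (hx : x ≠ ∞) {c : ℝ} (hc : c < 1) :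
    vv x ≤ c ↔ ‖toC x‖ ^ 2 ≤ c / (1 - c) := by
  have h1 := vv_toC (vv_lt_one hx)
  have h2 := vv_lt_one hx
  have h3 : ‖toC x‖ ^ 2 = vv x / (1 - vv x) := by
    rw [eq_div_iff (by linarith)]
    exact h1
  rw [h3, div_le_div_iff₀ (by linarith) (by linarith)]
  constructor <;> intro h <;> nlinarith

lemma ne_zero_of_vv {x : OnePoint ℂ} (h : 0 < vv x) : x ≠ ((0 : ℂ) : OnePoint ℂ) := by
  intro h'
  rw [h', vv_coe] at h
  simp at h

lemma vv_eq_zero {x : OnePoint ℂ} (h : x ≠ ∞) (h0 : toC x = 0) : vv x = 0 := by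
  rw [eq_coe_toC h, h0, vv_coe]
  simp

lemma mem_comp_of_closure {U : Set ℂ} (hU : IsOpen U) {z y : ℂ}
    (hy : y ∈ closure (connectedComponentIn U z)) (hyU : y ∈ U) :
    y ∈ connectedComponentIn U z := by
  obtain ⟨x, hx1, hx2⟩ := mem_closure_iff.1 hy _ hU.connectedComponentIn
    (mem_connectedComponentIn hyU)
  have e1 := connectedComponentIn_eq hx1
  have e2 := connectedComponentIn_eq hx2
  rw [e2, ← e1]
  exact mem_connectedComponentIn hyU

lemma frontier_nonempty {W : Set ℂ} (hW : W.Nonempty) (hb : Bornology.IsBounded W) :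
    (frontier W).Nonempty := by
  rw [nonempty_frontier_iff]
  refine ⟨hW, fun h => ?_⟩
  rw [h] at hb
  exact NormedSpace.unbounded_univ ℝ ℂ hb

/-- Bounded pockets: for a compact `K ⊆ L` with `Lᶜ` connected, a point outside `K` is connected
to `Lᶜ` outside `K`, or its component outside `K` lies in the interior of `L`. -/
lemma pocket {K : Set ℂ} (hLc : IsConnected Lᶜ) (hK : IsClosed K) (hKL : K ⊆ L)
    {z z0 : ℂ} (hz : z ∈ Kᶜ) (hz0 : z0 ∈ Lᶜ) :
    z ∈ connectedComponentIn Kᶜ z0 ∨
      (connectedComponentIn Kᶜ z ⊆ interior L ∧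
        Disjoint (connectedComponentIn Kᶜ z) (connectedComponentIn Kᶜ z0)) := by
  have hLK : Lᶜ ⊆ connectedComponentIn Kᶜ z0 :=
    hLc.isPreconnected.subset_connectedComponentIn hz0 (compl_subset_compl.2 hKL)
  by_cases h : z ∈ connectedComponentIn Kᶜ z0
  · exact Or.inl h
  · right
    have hd : Disjoint (connectedComponentIn Kᶜ z) (connectedComponentIn Kᶜ z0) := by
      rw [Set.disjoint_left]
      intro y hy1 hy2
      apply h
      rw [connectedComponentIn_eq hy2, ← connectedComponentIn_eq hy1]
      exact mem_connectedComponentIn hz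
    refine ⟨?_, hd⟩
    apply interior_maximal _ hK.isOpen_compl.connectedComponentIn
    intro y hy
    by_contra hcon
    exact Set.disjoint_left.1 hd hy (hLK hcon)

/-- `{f ≤ c}` is compact -/
lemma kf_compact (hL : IsCompact L) (hf : InM L f) (c : ℝ) :
    IsCompact {z | z ∈ L ∧ vv (f z) ≤ c} := by
  refine hL.of_isClosed_subset ?_ (fun z hz => hz.1)
  exact hf.vcont.preimage_isClosed_of_isClosed hL.isClosed isClosed_Iic

lemma ke_compact (hL : IsCompact L) (hf : InM L f) (c : ℝ) :
    IsCompact {z | z ∈ L ∧ c ≤ vv (f z)} := by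
  refine hL.of_isClosed_subset ?_ (fun z hz => hz.1)
  exact hf.vcont.preimage_isClosed_of_isClosed hL.isClosed isClosed_Ici

/-- the complement of `{f ≤ c}` is connected -/
theorem kf_conn (hL : IsCompact L) (hLc : IsConnected Lᶜ) (hf : InM L f) (c : ℝ) (hc : c < 1)
    (hc0 : 0 ≤ c) : IsConnected {z | z ∈ L ∧ vv (f z) ≤ c}ᶜ := by
  set K : Set ℂ := {z | z ∈ L ∧ vv (f z) ≤ c} with hK
  have hKc : IsCompact K := kf_compact hL hf c
  obtain ⟨z0, hz0⟩ := hLc.nonempty
  have hz0K : z0 ∈ Kᶜ := fun h => hz0 h.1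
  have hkey : ∀ z ∈ Kᶜ, z ∈ connectedComponentIn Kᶜ z0 := by
    intro z hz
    rcases pocket hLc hKc.isClosed (fun z hz => hz.1) hz hz0 with h | ⟨hW, hd⟩
    · exact h
    · exfalso
      set W := connectedComponentIn Kᶜ z with hWd
      have hzW : z ∈ W := mem_connectedComponentIn hz
      have hWo : IsOpen W := hKc.isClosed.isOpen_compl.connectedComponentIn
      have hWL : W ⊆ L := hW.trans interior_subset
      have hWb : Bornology.IsBounded W := hL.isBounded.subset hWL
      have hclL : closure W ⊆ L := closure_minimal hWL hL.isClosed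
      have hfr : ∀ y ∈ frontier W, y ∈ K := by
        intro y hy
        by_contra hcon
        rw [frontier_eq_closure_inter_closure] at hy
        have h1 : y ∈ W := mem_comp_of_closure hKc.isClosed.isOpen_compl hy.1 hcon
        have h2 : y ∉ W := by
          have := hy.2
          rw [closure_compl, hWo.interior_eq] at this
          exact this
        exact h2 h1
      have hWV : W ⊆ connectedComponentIn (interior L) z :=
        isPreconnected_connectedComponentIn.subset_connectedComponentIn hzW hW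
      obtain ⟨y, hy⟩ := frontier_nonempty ⟨z, hzW⟩ hWb
      by_cases hfz : f z = ∞
      · have h1 : ∀ w ∈ W, vv (f w) = 1 := by
          intro w hw
          rw [hf.infty_on (hW hzW) hfz w (hWV hw), vv_infty]
        have h2 : vv (f y) = 1 := by
          have h3 : Set.EqOn (fun w => vv (f w)) (fun _ => (1 : ℝ)) (closure W) :=
            Set.EqOn.of_subset_closure (s := W) (t := closure W) h1 (hf.vcont.mono hclL)
              continuousOn_const subset_closure subset_rfl
          exact h3 (frontier_subset_closure hy)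
        have h3 := (hfr y hy).2
        linarith
      · have hfin : ∀ w ∈ W, f w ≠ ∞ := fun w hw => hf.ne_infty_on (hW hzW) hfz w (hWV hw)
        have hcl : ∀ w ∈ closure W, f w ≠ ∞ := by
          intro w hw
          by_cases hwW : w ∈ W
          · exact hfin w hwW
          · apply ne_infty_of_vv
            have : w ∈ frontier W := by
              rw [hWo.frontier_eq]
              exact ⟨hw, hwW⟩
            exact lt_of_le_of_lt (hfr w this).2 hc
        have hdc : DiffContOnCl ℂ (fun w => toC (f w)) W := by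
          refine ⟨fun w hw => (hf.diffAt (hW hw) (hfin w hw)).differentiableWithinAt,
            fun w hw => ?_⟩
          exact (hf.contWithin (hclL hw) (hcl w hw)).mono hclL
        have hmax := Complex.norm_le_of_forall_mem_frontier_norm_le hWb hdc
          (C := √(c / (1 - c))) (fun w hw => by
            apply Real.le_sqrt_of_sq_le
            rw [← vv_le_iff (hcl w (frontier_subset_closure hw)) hc]
            exact (hfr w hw).2) (subset_closure hzW)
        have h1 : vv (f z) ≤ c := by
          rw [vv_le_iff hfz hc]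
          have h2 : 0 ≤ c / (1 - c) := div_nonneg hc0 (by linarith)
          calc ‖toC (f z)‖ ^ 2 ≤ √(c / (1 - c)) ^ 2 := pow_le_pow_left₀ (norm_nonneg _) hmax 2
            _ = c / (1 - c) := Real.sq_sqrt h2
        exact hz ⟨hWL hzW, h1⟩
  have heq : Kᶜ = connectedComponentIn Kᶜ z0 :=
    Subset.antisymm hkey (connectedComponentIn_subset _ _)
  rw [heq]
  exact isConnected_connectedComponentIn_iff.2 hz0K

/-- Division by a polynomial carrying the finitely many zeros. -/
lemma div_zeros (O : Set ℂ) (hO : IsOpen O) (Z : Finset ℂ) : ∀ F : ℂ → ℂ,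
    DifferentiableOn ℂ F O → (∀ z ∈ O, F z = 0 ↔ z ∈ Z) → (∀ z ∈ Z, z ∈ O) →
    ∃ (q : ℂ[X]) (g : ℂ → ℂ), DifferentiableOn ℂ g O ∧ (∀ z ∈ O, g z ≠ 0) ∧
      (∀ z ∈ O, F z = q.eval z * g z) ∧ (∀ z, q.eval z = 0 → z ∈ Z) := by
  classical
  induction Z using Finset.induction_on with
  | empty =>
    intro F hF hFZ _
    refine ⟨1, F, hF, fun z hz h => ?_, fun z _ => by simp, fun z h => ?_⟩
    · have := (hFZ z hz).1 h
      simp at this
    · simp at h
  | insert ζ Z' hζ ih =>
    intro F hF hFZ hZO
    have hζO : ζ ∈ O := hZO ζ (Finset.mem_insert_self _ _)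
    have han : AnalyticAt ℂ F ζ := hF.analyticAt (hO.mem_nhds hζO)
    have hnl : ¬ ∀ᶠ w in 𝓝 ζ, F w = 0 := by
      intro h
      have h1 : ((insert ζ Z' : Finset ℂ) : Set ℂ) ∈ 𝓝 ζ := by
        filter_upwards [h, hO.mem_nhds hζO] with w hw hwO
        exact Finset.mem_coe.2 ((hFZ w hwO).1 hw)
      exact (infinite_of_mem_nhds ζ h1) (Finset.finite_toSet _)
    obtain ⟨n, g0, hg0, hg0ζ, hev⟩ := (han.exists_eventuallyEq_pow_smul_nonzero_iff).2 hnl
    set G : ℂ → ℂ := fun z => if z = ζ then g0 ζ else F z / (z - ζ) ^ n with hG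
    have hGF : ∀ z, z ≠ ζ → G z = F z / (z - ζ) ^ n := fun z hz => if_neg hz
    have hGζ : G ζ = g0 ζ := if_pos rfl
    have hFζ : F ζ = 0 := (hFZ ζ hζO).2 (Finset.mem_insert_self _ _)
    have hFG : ∀ z, F z = (z - ζ) ^ n * G z := by
      intro z
      by_cases hz : z = ζ
      · rw [hz, hGζ]
        have := hev.self_of_nhds
        rw [this, smul_eq_mul]
      · rw [hGF z hz]
        have : (z - ζ) ^ n ≠ 0 := pow_ne_zero _ (sub_ne_zero.2 hz)
        field_simp
    have hGd : DifferentiableOn ℂ G O := by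
      intro z hz
      apply DifferentiableAt.differentiableWithinAt
      by_cases hzζ : z = ζ
      · rw [hzζ]
        refine hg0.differentiableAt.congr_of_eventuallyEq ?_
        filter_upwards [hev] with w hw
        by_cases hwζ : w = ζ
        · rw [hwζ, hGζ]
        · rw [hGF w hwζ, hw, smul_eq_mul]
          have : (w - ζ) ^ n ≠ 0 := pow_ne_zero _ (sub_ne_zero.2 hwζ)
          field_simp
      · have h1 : DifferentiableAt ℂ (fun z => F z / (z - ζ) ^ n) z := by
          refine (hF.differentiableAt (hO.mem_nhds hz)).div (by fun_prop) ?_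
          exact pow_ne_zero _ (sub_ne_zero.2 hzζ)
        refine h1.congr_of_eventuallyEq ?_
        filter_upwards [isOpen_ne.mem_nhds hzζ] with w hw
        exact hGF w hw
    obtain ⟨q, g, hg, hg0', hGq, hq⟩ := ih G hGd (by
      intro z hz
      by_cases hzζ : z = ζ
      · rw [hzζ, hGζ]
        exact ⟨fun h => absurd h hg0ζ, fun h => absurd h hζ⟩
      · have h1 : F z = 0 ↔ G z = 0 := by
          rw [hFG z, mul_eq_zero]
          constructor
          · rintro (h | h)
            · exact absurd h (pow_ne_zero _ (sub_ne_zero.2 hzζ))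
            · exact h
          · exact fun h => Or.inr h
        rw [← h1, hFZ z hz, Finset.mem_insert]
        constructor
        · rintro (h | h)
          · exact absurd h hzζ
          · exact h
        · exact fun h => Or.inr h) (fun z hz => hZO z (Finset.mem_insert_of_mem hz))
    refine ⟨(Polynomial.X - Polynomial.C ζ) ^ n * q, g, hg, hg0', fun z hz => ?_, fun z hz => ?_⟩
    · rw [hFG z, hGq z hz, Polynomial.eval_mul, Polynomial.eval_pow, Polynomial.eval_sub,
        Polynomial.eval_X, Polynomial.eval_C, mul_assoc]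
    · rw [Polynomial.eval_mul, Polynomial.eval_pow, Polynomial.eval_sub,
        Polynomial.eval_X, Polynomial.eval_C, mul_eq_zero] at hz
      rcases hz with h | h
      · have : z = ζ := by
          by_contra hne
          exact pow_ne_zero n (sub_ne_zero.2 hne) h
        rw [this]
        exact Finset.mem_insert_self _ _
      · exact Finset.mem_insert_of_mem (hq z h)

end Pool.Agent.Q163.CM
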