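import Pool.Agent.Q163.CM.Core1

/-!
# Rational approximation of `1/f` on `{|f| ≥ 1}`
-/

open Complex Filter Topology Set Metric
open scoped OnePoint Polynomial

namespace Pool.Agent.Q163.CM

variable {L : Set ℂ} {f : ℂ → OnePoint ℂ}

/-- On `{|f| ≥ 1}` the function `1/f` is uniformly close to quotients `p/q` of polynomials, with
`p` and `q` free of zeros there. -/
theorem inv_approx (hL : IsCompact L) (hLc : IsConnected Lᶜ) (hf : InM L f) (τ : ℝ) (hτ : 0 < τ) :
    ∃ p q : ℂ[X], (∀ z ∈ L, 1 / 2 ≤ vv (f z) → p.eval z ≠ 0 ∧ q.eval z ≠ 0 ∧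
      ‖p.eval z / q.eval z - (toC (f z))⁻¹‖ < τ) := by
  classical
  set K : Set ℂ := {z | z ∈ L ∧ 1 / 2 ≤ vv (f z)} with hK
  have hKc : IsCompact K := ke_compact hL hf _
  have hKL : K ⊆ L := fun z hz => hz.1
  obtain ⟨z0, hz0⟩ := hLc.nonempty
  have hz0K : z0 ∈ Kᶜ := fun h => hz0 h.1
  have hKo : IsOpen Kᶜ := hKc.isClosed.isOpen_compl
  set U0 : Set ℂ := connectedComponentIn Kᶜ z0 with hU0
  have hU0o : IsOpen U0 := hKo.connectedComponentIn
  have hLU0 : Lᶜ ⊆ U0 :=
    hLc.isPreconnected.subset_connectedComponentIn hz0 (compl_subset_compl.2 hKL)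
  set E : Set ℂ := U0ᶜ with hE
  have hEL : E ⊆ L := by
    intro z hz
    by_contra hcon
    exact hz (hLU0 hcon)
  have hEcl : IsClosed E := hU0o.isClosed_compl
  have hEc : IsCompact E := hL.of_isClosed_subset hEcl hEL
  have hKE : K ⊆ E := by
    intro z hz h
    exact connectedComponentIn_subset _ _ h hz
  have hEconn : IsConnected Eᶜ := by
    rw [hE, compl_compl]
    exact isConnected_connectedComponentIn_iff.2 hz0K
  set O : Set ℂ := E ∩ Kᶜ with hO
  have hcompO : ∀ z ∈ O, connectedComponentIn Kᶜ z ⊆ O := by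
    intro z hz
    rcases pocket hLc hKc.isClosed hKL hz.2 hz0 with h | ⟨_, h2⟩
    · exact absurd h hz.1
    · intro w hw
      exact ⟨fun h => Set.disjoint_left.1 h2 hw h, connectedComponentIn_subset _ _ hw⟩
  have hOo : IsOpen O := by
    rw [isOpen_iff_mem_nhds]
    intro z hz
    filter_upwards [hKo.connectedComponentIn.mem_nhds (mem_connectedComponentIn hz.2)] with w hw
    exact hcompO z hz hw
  have hOL : O ⊆ interior L := interior_maximal (fun z hz => hEL hz.1) hOo
  have hOE : O ⊆ E := fun z hz => hz.1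
  have hclE : closure O ⊆ E := closure_minimal hOE hEcl
  have hclL : closure O ⊆ L := hclE.trans hEL
  have hOv : ∀ z ∈ O, vv (f z) < 1 / 2 := by
    intro z hz
    by_contra hcon
    push Not at hcon
    exact hz.2 ⟨hEL hz.1, hcon⟩
  have hclv : ∀ z ∈ closure O, vv (f z) ≤ 1 / 2 := by
    intro z hz
    have h1 : closure O ⊆ {z | z ∈ L ∧ vv (f z) ≤ 1 / 2} :=
      closure_minimal (fun z hz => ⟨hEL hz.1, (hOv z hz).le⟩) (kf_compact hL hf _).isClosed
    exact (h1 hz).2
  have hclfin : ∀ z ∈ closure O, f z ≠ ∞ := by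
    intro z hz
    apply ne_infty_of_vv
    linarith [hclv z hz]
  set F : ℂ → ℂ := fun w => toC (f w) with hF
  have hFd : DifferentiableOn ℂ F O := fun z hz =>
    (hf.diffAt (hOL hz) (hclfin z (subset_closure hz))).differentiableWithinAt
  have hFc : ContinuousOn F (closure O) := fun z hz =>
    (hf.contWithin (hclL hz) (hclfin z hz)).mono hclL
  -- finitely many zeros
  have hfinZ : {z | z ∈ O ∧ F z = 0}.Finite := by
    by_contra hinf
    have hclc : IsCompact (closure O) := hL.of_isClosed_subset isClosed_closure hclL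
    obtain ⟨x, hx, hacc⟩ := Set.Infinite.exists_accPt_of_subset_isCompact hinf hclc
      (fun z hz => subset_closure hz.1)
    have hfreq : ∃ᶠ y in 𝓝[≠] x, y ∈ O ∧ F y = 0 := accPt_iff_frequently_nhdsNE.1 hacc
    have hx0 : F x = 0 := by
      have h1 : closure {z | z ∈ O ∧ F z = 0} ⊆ {z | z ∈ closure O ∧ F z ∈ ({0} : Set ℂ)} := by
        apply closure_minimal
        · exact fun z hz => ⟨subset_closure hz.1, hz.2⟩
        · exact hFc.preimage_isClosed_of_isClosed isClosed_closure isClosed_singleton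
      exact (h1 (mem_closure_iff_frequently.2 (hfreq.filter_mono nhdsWithin_le_nhds))).2
    have hvx : vv (f x) = 0 := vv_eq_zero (hclfin x hx) hx0
    have hxK : x ∈ Kᶜ := by
      intro h
      have := h.2
      rw [hvx] at this
      norm_num at this
    have hxO : x ∈ O := ⟨hclE hx, hxK⟩
    set W := connectedComponentIn Kᶜ x with hW
    have hWO : W ⊆ O := hcompO x hxO
    have hWo : IsOpen W := hKo.connectedComponentIn
    have hxW : x ∈ W := mem_connectedComponentIn hxK
    have hWan : AnalyticOnNhd ℂ F W := (hFd.mono hWO).analyticOnNhd hWo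
    have hW0 : Set.EqOn F 0 W :=
      hWan.eqOn_zero_of_preconnected_of_frequently_eq_zero
        isPreconnected_connectedComponentIn hxW (hfreq.mono fun y hy => hy.2)
    obtain ⟨y, hy⟩ := frontier_nonempty ⟨x, hxW⟩ (hL.isBounded.subset (hWO.trans (hOE.trans hEL)))
    have hyK : y ∈ K := by
      by_contra hcon
      rw [hWo.frontier_eq] at hy
      exact hy.2 (mem_comp_of_closure hKo hy.1 hcon)
    have hycl : y ∈ closure O := closure_mono hWO (frontier_subset_closure hy)
    have hy0 : F y = 0 := by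
      have h3 : Set.EqOn F 0 (closure W) :=
        Set.EqOn.of_subset_closure (s := W) (t := closure W) hW0 (hFc.mono (closure_mono hWO))
          continuousOn_const subset_closure subset_rfl
      exact h3 (frontier_subset_closure hy)
    have := hyK.2
    rw [vv_eq_zero (hclfin y hycl) hy0] at this
    norm_num at this
  obtain ⟨q, g, hgd, hg0, hFg, hq⟩ := div_zeros O hOo hfinZ.toFinset F hFd (by
    intro z hz
    rw [Set.Finite.mem_toFinset]
    exact ⟨fun h => ⟨hz, h⟩, fun h => h.2⟩) (by
    intro z hz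
    rw [Set.Finite.mem_toFinset] at hz
    exact hz.1)
  have hqZ : ∀ z, z ∉ O → q.eval z ≠ 0 := by
    intro z hz h
    have := hq z h
    rw [Set.Finite.mem_toFinset] at this
    exact hz this.1
  -- the function on `E`
  set h1 : ℂ → ℂ := fun z => if z ∈ O then (g z)⁻¹ else q.eval z * (F z)⁻¹ with hh1
  have h1O : ∀ z ∈ O, h1 z = (g z)⁻¹ := fun z hz => if_pos hz
  have h1K : ∀ z ∈ E, 0 < vv (f z) → h1 z = q.eval z * (F z)⁻¹ := by
    intro z hz hv
    by_cases hzO : z ∈ O
    · rw [h1O z hzO, hFg z hzO]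
      have hFz : F z ≠ 0 := by
        intro h
        rw [vv_eq_zero (hclfin z (subset_closure hzO)) h] at hv
        exact lt_irrefl _ hv
      have hqz : q.eval z ≠ 0 := by
        intro h
        rw [hFg z hzO, h, zero_mul] at hFz
        exact hFz rfl
      have hgz := hg0 z hzO
      field_simp
    · exact if_neg hzO
  have hEOK : ∀ z ∈ E, z ∉ O → z ∈ K := by
    intro z hz hzO
    by_contra hcon
    exact hzO ⟨hz, hcon⟩
  have h1c : ContinuousOn h1 E := by
    intro z hz
    by_cases hzO : z ∈ O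
    · have : ContinuousAt h1 z := by
        have h2 : ContinuousAt (fun w => (g w)⁻¹) z :=
          ((hgd.differentiableAt (hOo.mem_nhds hzO)).continuousAt).inv₀ (hg0 z hzO)
        refine h2.congr ?_
        filter_upwards [hOo.mem_nhds hzO] with w hw
        exact (h1O w hw).symm
      exact this.continuousWithinAt
    · have hzK := hEOK z hz hzO
      have hv : 0 < vv (f z) := by linarith [hzK.2]
      have h2 : ContinuousWithinAt (fun w => q.eval w * (F w)⁻¹) E z := by
        refine (q.continuous.continuousWithinAt).mul ?_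
        exact (hf.inv_contWithin (hEL hz) (ne_zero_of_vv hv)).mono hEL
      refine h2.congr_of_eventuallyEq ?_ (h1K z hz hv)
      have h3 : ∀ᶠ w in 𝓝[E] z, 0 < vv (f w) :=
        ((hf.vcont z (hEL hz)).mono hEL).eventually (lt_mem_nhds hv)
      filter_upwards [h3, self_mem_nhdsWithin] with w hw hwE
      exact h1K w hwE hw
  have h1d : DifferentiableOn ℂ h1 (interior E) := by
    intro z hz
    apply DifferentiableAt.differentiableWithinAt
    have hzE : z ∈ E := interior_subset hz
    have hzL : z ∈ interior L := interior_mono hEL hz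
    by_cases hzO : z ∈ O
    · have h2 : DifferentiableAt ℂ (fun w => (g w)⁻¹) z :=
        (hgd.differentiableAt (hOo.mem_nhds hzO)).inv (hg0 z hzO)
      refine h2.congr_of_eventuallyEq ?_
      filter_upwards [hOo.mem_nhds hzO] with w hw
      exact h1O w hw
    · have hzK := hEOK z hzE hzO
      have hv : 0 < vv (f z) := by linarith [hzK.2]
      have h2 : DifferentiableAt ℂ (fun w => q.eval w * (F w)⁻¹) z :=
        (q.differentiable z).mul (hf.inv_diffAt hzL (ne_zero_of_vv hv))
      refine h2.congr_of_eventuallyEq ?_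
      have h3 : ∀ᶠ w in 𝓝 z, 0 < vv (f w) :=
        ((hf.vcont z (hEL hzE)).continuousAt (mem_interior_iff_mem_nhds.1 hzL)).eventually
          (lt_mem_nhds hv)
      filter_upwards [h3, isOpen_interior.mem_nhds hz] with w hw hwE
      exact h1K w (interior_subset hwE) hw
  have hNZ : NZ E h1 := by
    intro z hz hz0 w hw
    have hzE : z ∈ E := interior_subset hz
    have hzL : z ∈ interior L := interior_mono hEL hz
    have hzO : z ∉ O := by
      intro h
      rw [h1O z h] at hz0
      exact inv_ne_zero (hg0 z h) hz0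
    have hzK := hEOK z hzE hzO
    have hv : 0 < vv (f z) := by linarith [hzK.2]
    rw [h1K z hzE hv, mul_eq_zero] at hz0
    have hF0 : F z = 0 := by
      rcases hz0 with h | h
      · exact absurd h (hqZ z hzO)
      · exact inv_eq_zero.1 h
    have hinf : f z = ∞ := by
      by_contra hcon
      rw [vv_eq_zero hcon hF0] at hv
      exact lt_irrefl _ hv
    have hsub : connectedComponentIn (interior E) z ⊆ connectedComponentIn (interior L) z :=
      connectedComponentIn_mono _ (interior_mono hEL)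
    have hfw := hf.infty_on hzL hinf w (hsub hw)
    have hwE : w ∈ E := interior_subset (connectedComponentIn_subset _ _ hw)
    rw [h1K w hwE (by rw [hfw, vv_infty]; norm_num), hF]
    simp only
    rw [hfw, toC_infty, inv_zero, mul_zero]
  -- lower bound for `q` on `K`
  obtain ⟨c0, hc0, hqc⟩ : ∃ c0 : ℝ, 0 < c0 ∧ ∀ z ∈ K, c0 ≤ ‖q.eval z‖ := by
    rcases K.eq_empty_or_nonempty with hKe | hKne
    · exact ⟨1, one_pos, fun z hz => by rw [hKe] at hz; exact absurd hz (notMem_empty z)⟩
    · obtain ⟨x, hx, hmin⟩ := hKc.exists_isMinOn hKne (q.continuous.norm.continuousOn)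
      refine ⟨‖q.eval x‖, norm_pos_iff.2 (hqZ x (fun h => h.2 hx)), fun z hz => hmin hz⟩
  obtain ⟨p, hp0, hp⟩ := zero_free_of_approx2 hEc hEconn h1 h1c h1d hNZ
    (fun ε hε => ZFM.mergelyan hEc hEconn h1 h1c h1d ε hε) (c0 * τ) (by positivity)
  refine ⟨p, q, fun z hz hv => ?_⟩
  have hzK : z ∈ K := ⟨hz, hv⟩
  have hzE := hKE hzK
  have hqz : q.eval z ≠ 0 := hqZ z (fun h => h.2 hzK)
  refine ⟨hp0 z hzE, hqz, ?_⟩
  have h2 := hp z hzE
  rw [h1K z hzE (by linarith)] at h2
  have e : p.eval z / q.eval z - (toC (f z))⁻¹ =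
      (p.eval z - q.eval z * (F z)⁻¹) / q.eval z := by
    rw [sub_div, mul_div_cancel_left₀ _ hqz]
  rw [e, norm_div, div_lt_iff₀ (norm_pos_iff.2 hqz)]
  calc _ < c0 * τ := h2
    _ ≤ ‖q.eval z‖ * τ := mul_le_mul_of_nonneg_right (hqc z hzK) hτ.le
    _ = τ * ‖q.eval z‖ := mul_comm _ _

end Pool.Agent.Q163.CM
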