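import Pool.Agent.Helper240.ZFM.Defs
import Pool.Agent.Helper240.ZFM.H1
import Pool.Agent.Helper240.ZFM.R1
import Pool.Agent.Helper240.ZFM.R3
import Pool.Agent.Helper240.ZFM.Q4

/-!
# Almost holomorphic functions near a compact set with connected complement
-/

open Complex Filter Topology Set Metric MeasureTheory

namespace Pool.Agent.Q163.CM

open ZFM

lemma aesm_div {m n : ℂ → ℂ} (hm : AEStronglyMeasurable m volume) (hn : Measurable n) :
    AEStronglyMeasurable (fun w => m w / n w) volume :=
  (hm.aemeasurable.div hn.aemeasurable).aestronglyMeasurable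

/-- the Cauchy transform of a function vanishing on an open set is holomorphic there -/
lemma cauchy_diff {U : Set ℂ} (hU : IsOpen U) (m : ℂ → ℂ) (hm : Integrable m)
    (hm0 : ∀ w ∈ U, m w = 0) : DifferentiableOn ℂ (fun z => ∫ w : ℂ, m w / (z - w)) U := by
  intro z hz
  obtain ⟨r, hr, hrU⟩ := Metric.isOpen_iff.1 hU z hz
  apply DifferentiableAt.differentiableWithinAt
  have hfar : ∀ w, m w ≠ 0 → ∀ x ∈ ball z (r / 2), r / 2 ≤ ‖x - w‖ := by
    intro w hw x hx
    by_contra hcon
    push Not at hcon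
    apply hw
    apply hm0
    apply hrU
    rw [mem_ball, dist_eq_norm] at hx ⊢
    have : ‖w - z‖ ≤ ‖x - w‖ + ‖x - z‖ := by
      have e : w - z = -(x - w) + (x - z) := by ring
      rw [e]
      refine (norm_add_le _ _).trans ?_
      rw [norm_neg]
    linarith
  have hkey := hasDerivAt_integral_of_dominated_loc_of_deriv_le (𝕜 := ℂ) (μ := volume)
    (F := fun z w => m w / (z - w)) (F' := fun z w => -(m w / (z - w) ^ 2)) (x₀ := z)
    (s := ball z (r / 2)) (bound := fun w => ‖m w‖ * (1 / (r / 2) ^ 2))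
    (ball_mem_nhds z (by positivity)) ?_ ?_ ?_ ?_ ?_ ?_
  · exact hkey.2.differentiableAt
  · refine Filter.Eventually.of_forall fun x => ?_
    exact aesm_div hm.aestronglyMeasurable (measurable_const.sub measurable_id)
  · refine Integrable.mono' (hm.norm.mul_const (1 / (r / 2))) ?_ ?_
    · exact aesm_div hm.aestronglyMeasurable (measurable_const.sub measurable_id)
    · refine Filter.Eventually.of_forall fun w => ?_
      by_cases hw : m w = 0
      · simp [hw]
      · have h1 := hfar w hw z (mem_ball_self (by positivity))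
        rw [norm_div, div_eq_mul_one_div]
        apply mul_le_mul_of_nonneg_left _ (norm_nonneg _)
        exact one_div_le_one_div_of_le (by positivity) h1
  · exact (aesm_div hm.aestronglyMeasurable
      ((measurable_const.sub measurable_id).pow_const 2)).neg
  · refine Filter.Eventually.of_forall fun w x hx => ?_
    by_cases hw : m w = 0
    · simp [hw]
    · have h1 := hfar w hw x hx
      rw [norm_neg, norm_div, norm_pow, div_eq_mul_one_div]
      apply mul_le_mul_of_nonneg_left _ (norm_nonneg _)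
      apply one_div_le_one_div_of_le (by positivity)
      exact pow_le_pow_left₀ (by positivity) h1 2
  · exact hm.norm.mul_const _
  · refine Filter.Eventually.of_forall fun w x hx => ?_
    by_cases hw : m w = 0
    · simp only [hw, zero_div, neg_zero]
      exact hasDerivAt_const _ _
    · have h1 := hfar w hw x hx
      have hne : x - w ≠ 0 := by
        intro h
        rw [h, norm_zero] at h1
        linarith
      have h2 := (hasDerivAt_const x (m w)).div ((hasDerivAt_id x).sub_const w) hne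
      refine h2.congr_deriv ?_
      simp
      ring

/-- local integral of the Cauchy kernel -/
lemma kernel_bound : ∃ C : ℝ, 0 < C ∧ ∀ (R : ℝ) (z : ℂ) (v : ℂ → ℂ) (τ : ℝ), 0 < R → 0 ≤ τ →
    ‖z‖ ≤ R → AEStronglyMeasurable v volume → (∀ w, ‖v w‖ ≤ τ) → (∀ w, R < ‖w‖ → v w = 0) →
    Integrable (fun w => v w / (z - w)) ∧ ‖∫ w : ℂ, v w / (z - w)‖ ≤ C * R * τ := by
  obtain ⟨C, hC, hint⟩ := int_bound
  refine ⟨2 * C, by positivity, ?_⟩
  intro R z v τ hR hτ hz hv hvτ hv0
  obtain ⟨h1, h2⟩ := hint 1 (2 * R) z (by positivity) zero_le_one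
  have hb : ∀ w, ‖v w / (z - w)‖ ≤ τ * min (1 * (1 / (2 * R) + 1 / ‖z - w‖))
      (1 * (2 * R) ^ 2 / ‖z - w‖ ^ 3) := by
    intro w
    have hmin0 : 0 ≤ min (1 * (1 / (2 * R) + 1 / ‖z - w‖)) (1 * (2 * R) ^ 2 / ‖z - w‖ ^ 3) := by
      apply le_min <;> positivity
    by_cases hw : R < ‖w‖
    · rw [hv0 w hw, zero_div, norm_zero]
      positivity
    · push Not at hw
      rw [norm_div, div_eq_mul_one_div]
      apply mul_le_mul (hvτ w) _ (by positivity) hτ
      rcases (norm_nonneg (z - w)).eq_or_lt with h0 | h0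
      · rw [← h0]
        simp
        positivity
      · apply le_min
        · rw [one_mul]
          have : 0 < 1 / (2 * R) := by positivity
          linarith
        · have h3 : ‖z - w‖ ≤ 2 * R := by
            have := norm_sub_le z w
            linarith
          rw [one_mul, div_le_div_iff₀ h0 (by positivity), one_mul]
          have h4 : ‖z - w‖ ^ 2 ≤ (2 * R) ^ 2 := pow_le_pow_left₀ h0.le h3 2
          calc ‖z - w‖ ^ 3 = ‖z - w‖ ^ 2 * ‖z - w‖ := by ring
            _ ≤ (2 * R) ^ 2 * ‖z - w‖ := mul_le_mul_of_nonneg_right h4 h0.le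
  constructor
  · refine Integrable.mono' (h1.const_mul τ) ?_ (Filter.Eventually.of_forall hb)
    exact aesm_div hv (measurable_const.sub measurable_id)
  · refine (norm_integral_le_of_norm_le (h1.const_mul τ) (Filter.Eventually.of_forall hb)).trans ?_
    rw [integral_const_mul]
    calc _ ≤ τ * (C * 1 * (2 * R)) := mul_le_mul_of_nonneg_left h2 hτ
      _ = 2 * C * R * τ := by ring

/-- A function that is almost holomorphic near `L` is almost a polynomial on `L`. -/
theorem glue_poly : ∃ C : ℝ, 0 < C ∧ ∀ (L Ω : Set ℂ) (g : ℂ → ℂ) (R τ : ℝ), IsCompact L →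
    IsConnected Lᶜ → IsOpen Ω → L ⊆ Ω → 0 < R → L ⊆ ball 0 R → 0 < τ →
    (∀ z ∈ Ω, ContDiffAt ℝ 1 g z) → (∀ z ∈ Ω, ‖dbar g z‖ ≤ τ) →
    ∃ P : Polynomial ℂ, ∀ z ∈ L, ‖P.eval z - g z‖ ≤ C * (R + 1) * τ := by
  obtain ⟨C, hC, hkb⟩ := kernel_bound
  refine ⟨C + 1, by positivity, ?_⟩
  intro L Ω g R τ hL hLc hΩ hLΩ hR hLR hτ hg hdb
  set U : Set ℂ := Ω ∩ ball 0 R with hU
  have hUo : IsOpen U := hΩ.inter isOpen_ball
  have hLU : L ⊆ U := fun z hz => ⟨hLΩ hz, hLR hz⟩
  obtain ⟨L', hL', hLL', hL'U⟩ := exists_compact_between hL hUo hLU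
  obtain ⟨χ, hχ1, hχ0, _⟩ := exists_contMDiffMap_one_nhds_of_subset_interior
    (modelWithCornersSelf ℝ ℂ) (n := 1) hL.isClosed hLL'
  have hχc : ContDiff ℝ 1 (fun z : ℂ => χ z) := χ.contMDiff.contDiff
  have hχc' : ContDiff ℝ 1 (fun z : ℂ => ((χ z : ℝ) : ℂ)) := Complex.ofRealCLM.contDiff.comp hχc
  obtain ⟨V, hV, hLV, hV1⟩ := eventually_nhdsSet_iff_exists.1 hχ1
  set u : ℂ → ℂ := fun z => ((χ z : ℝ) : ℂ) * g z with hu
  have hzero : ∀ z, z ∉ L' → u z = 0 := by
    intro z hz
    rw [hu]
    simp only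
    rw [hχ0 z hz, Complex.ofReal_zero, zero_mul]
  have hev0 : ∀ z, z ∉ L' → u =ᶠ[𝓝 z] fun _ => (0 : ℂ) := by
    intro z hz
    filter_upwards [hL'.isClosed.isOpen_compl.mem_nhds hz] with w hw
    exact hzero w hw
  have hu1 : ContDiff ℝ 1 u := by
    rw [contDiff_iff_contDiffAt]
    intro z
    by_cases hz : z ∈ U
    · exact hχc'.contDiffAt.mul (hg z hz.1)
    · have hz' : z ∉ L' := fun h => hz (hL'U h)
      exact contDiffAt_const.congr_of_eventuallyEq (hev0 z hz')
  have hus : HasCompactSupport u := HasCompactSupport.intro hL' hzero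
  -- the good neighbourhood
  set U2 : Set ℂ := V ∩ U with hU2
  have hU2o : IsOpen U2 := hV.inter hUo
  have hLU2 : L ⊆ U2 := fun z hz => ⟨hLV hz, hLU hz⟩
  have hug : ∀ z ∈ U2, u z = g z := by
    intro z hz
    rw [hu]
    simp only
    rw [hV1 z hz.1, Complex.ofReal_one, one_mul]
  have hugev : ∀ z ∈ U2, u =ᶠ[𝓝 z] g := by
    intro z hz
    filter_upwards [hU2o.mem_nhds hz] with w hw
    exact hug w hw
  have hdu : ∀ z ∈ U2, ‖dbar u z‖ ≤ τ := by
    intro z hz
    rw [J_h1.dbar_congr (hugev z hz)]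
    exact hdb z hz.2.1
  have hfc : Continuous (fderiv ℝ u) := hu1.continuous_fderiv (by norm_num)
  have hdc : Continuous (dbar u) := by
    unfold dbar
    have h1 : Continuous (fun z => fderiv ℝ u z 1) := hfc.clm_apply continuous_const
    have h2 : Continuous (fun z => fderiv ℝ u z I) := hfc.clm_apply continuous_const
    exact (h1.add (continuous_const.mul h2)).div_const 2
  have hds : HasCompactSupport (dbar u) := by
    have h1 : HasCompactSupport (fderiv ℝ u) := hus.fderiv ℝ
    exact h1.comp_left (g := fun T : ℂ →L[ℝ] ℂ => (T 1 + I * T I) / 2) (by simp)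
  have hdi : Integrable (dbar u) := hdc.integrable_of_hasCompactSupport hds
  -- splitting
  set m : ℂ → ℂ := U2ᶜ.indicator (dbar u) with hm
  set v : ℂ → ℂ := U2.indicator (dbar u) with hv
  have hmi : Integrable m := hdi.indicator hU2o.measurableSet.compl
  have hvi : Integrable v := hdi.indicator hU2o.measurableSet
  have hvτ : ∀ w, ‖v w‖ ≤ τ := by
    intro w
    by_cases hw : w ∈ U2
    · rw [hv, indicator_of_mem hw]
      exact hdu w hw
    · rw [hv, indicator_of_notMem hw, norm_zero]
      exact hτ.le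
  have hv0 : ∀ w, R < ‖w‖ → v w = 0 := by
    intro w hw
    apply indicator_of_notMem
    rintro ⟨_, _, h⟩
    rw [mem_ball_zero_iff] at h
    linarith
  have hm0 : ∀ w ∈ U2, m w = 0 := fun w hw => indicator_of_notMem (not_not.2 hw) _
  set G : ℂ → ℂ := fun z => (1 / (Real.pi : ℂ)) * ∫ w : ℂ, m w / (z - w) with hG
  have hGd : DifferentiableOn ℂ G U2 :=
    (cauchy_diff hU2o m hmi hm0).const_mul _
  have hGg : ∀ z ∈ L, ‖G z - g z‖ ≤ C * R * τ := by
    intro z hz
    have hzR : ‖z‖ ≤ R := by
      have := hLR hz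
      rw [mem_ball_zero_iff] at this
      exact this.le
    obtain ⟨i1, i2⟩ := hkb R z v τ hR hτ.le hzR hvi.aestronglyMeasurable hvτ hv0
    have hp := J_r1.pompeiu u hu1 hus z
    rw [hug z (hLU2 hz)] at hp
    have im : Integrable fun w => m w / (z - w) := by
      obtain ⟨r, hr, hrU⟩ := Metric.isOpen_iff.1 hU2o z (hLU2 hz)
      refine Integrable.mono' (hmi.norm.mul_const (1 / r)) ?_ ?_
      · exact aesm_div hmi.aestronglyMeasurable (measurable_const.sub measurable_id)
      · refine Filter.Eventually.of_forall fun w => ?_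
        by_cases hw : m w = 0
        · simp [hw]
        · have h1 : r ≤ ‖z - w‖ := by
            by_contra hcon
            push Not at hcon
            apply hw
            apply hm0
            apply hrU
            rw [mem_ball, dist_comm, dist_eq_norm]
            exact hcon
          rw [norm_div, div_eq_mul_one_div]
          apply mul_le_mul_of_nonneg_left _ (norm_nonneg _)
          exact one_div_le_one_div_of_le hr h1
    have hsplit : ∫ w : ℂ, dbar u w / (z - w) = (∫ w : ℂ, m w / (z - w)) +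
        ∫ w : ℂ, v w / (z - w) := by
      rw [← integral_add im i1]
      congr 1
      funext w
      rw [← add_div]
      congr 1
      by_cases hw : w ∈ U2
      · rw [hm, hv, indicator_of_mem hw, indicator_of_notMem (not_not.2 hw), zero_add]
      · rw [hm, hv, indicator_of_notMem hw, indicator_of_mem (show w ∈ U2ᶜ from hw), add_zero]
    have hdiff : G z - g z = -((1 / (Real.pi : ℂ)) * ∫ w : ℂ, v w / (z - w)) := by
      rw [hp, hsplit, hG]
      ring
    rw [hdiff, norm_neg, norm_mul]
    have h3 : ‖(1 / (Real.pi : ℂ))‖ ≤ 1 := by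
      rw [norm_div, norm_one, Complex.norm_real, Real.norm_eq_abs, abs_of_pos Real.pi_pos,
        div_le_one Real.pi_pos]
      linarith [Real.pi_gt_three]
    calc ‖(1 / (Real.pi : ℂ))‖ * ‖∫ w : ℂ, v w / (z - w)‖ ≤ 1 * (C * R * τ) :=
          mul_le_mul h3 i2 (norm_nonneg _) zero_le_one
      _ = C * R * τ := one_mul _
  obtain ⟨P, hP⟩ := J_r3.runge hL hLc hU2o hLU2 G hGd τ hτ
  refine ⟨P, fun z hz => ?_⟩
  have h1 := hP z hz
  have h2 := hGg z hz
  have h3 : ‖P.eval z - g z‖ ≤ ‖G z - P.eval z‖ + ‖G z - g z‖ := by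
    have e : P.eval z - g z = -(G z - P.eval z) + (G z - g z) := by ring
    rw [e]
    refine (norm_add_le _ _).trans ?_
    rw [norm_neg]
  nlinarith [mul_pos hC hτ, mul_pos hR hτ]

end Pool.Agent.Q163.CM
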