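import Pool.Agent.Q163.CM.Core2
import Pool.Agent.Q163.CM.Glue

/-!
# Chordal polynomial approximation
-/

open Complex Filter Topology Set Metric
open scoped OnePoint Polynomial

namespace Pool.Agent.Q163.CM

variable {L : Set ℂ} {f : ℂ → OnePoint ℂ}

lemma inv_close {a F : ℂ} (hF0 : F ≠ 0) (hF : ‖F‖ ≤ 3) {τ : ℝ} (hτ : τ ≤ 1 / 6)
    (h : ‖a - F⁻¹‖ < τ) : ‖a⁻¹ - F‖ ≤ 18 * τ := by
  have hFp : 0 < ‖F‖ := norm_pos_iff.2 hF0
  have h1 : 1 / 3 ≤ ‖F⁻¹‖ := by
    rw [norm_inv, ← one_div]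
    exact one_div_le_one_div_of_le hFp hF
  have h2 : 1 / 6 ≤ ‖a‖ := by
    have : ‖F⁻¹‖ ≤ ‖a‖ + ‖a - F⁻¹‖ := by
      have e : F⁻¹ = a - (a - F⁻¹) := by ring
      calc ‖F⁻¹‖ = ‖a - (a - F⁻¹)‖ := by rw [← e]
        _ ≤ _ := norm_sub_le _ _
    linarith
  have ha : a ≠ 0 := by
    intro h0
    rw [h0, norm_zero] at h2
    norm_num at h2
  have hap : 0 < ‖a‖ := norm_pos_iff.2 ha
  have e : a⁻¹ - F = -((a - F⁻¹) * F * a⁻¹) := by
    field_simp
    ring
  rw [e, norm_neg, norm_mul, norm_mul]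
  have h3 : ‖a⁻¹‖ ≤ 6 := by
    rw [norm_inv]
    rw [inv_le_comm₀ hap (by norm_num)]
    linarith
  have hτ0 : 0 ≤ τ := (norm_nonneg _).trans h.le
  calc ‖a - F⁻¹‖ * ‖F‖ * ‖a⁻¹‖ ≤ τ * 3 * 6 :=
        mul_le_mul (mul_le_mul h.le hF (norm_nonneg _) hτ0) h3 (norm_nonneg _) (by positivity)
    _ = 18 * τ := by ring

lemma cutoff (A0 A1 : Set ℂ) (h0 : IsCompact A0) (h1 : IsCompact A1) (hd : Disjoint A0 A1)
    (R : ℝ) :
    ∃ t : ℂ → ℝ, ContDiff ℝ 2 t ∧ (∀ z, 0 ≤ t z) ∧ (∀ z, t z ≤ 1) ∧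
      (∃ N0, IsOpen N0 ∧ A0 ⊆ N0 ∧ ∀ z ∈ N0, t z = 0) ∧
      (∃ N1, IsOpen N1 ∧ A1 ⊆ N1 ∧ ∀ z ∈ N1, t z = 1) ∧
      ∃ M : ℝ, 1 ≤ M ∧ ∀ z ∈ ball (0 : ℂ) R, ‖ZFM.dbar (fun w => (t w : ℂ)) z‖ ≤ M := by
  obtain ⟨f, hf0, hf1, hf⟩ := exists_contMDiffMap_zero_one_nhds_of_isClosed
    (modelWithCornersSelf ℝ ℂ) (n := 2) h0.isClosed h1.isClosed hd
  have hfs : ContDiff ℝ 2 (fun z => f z) := contMDiff_iff_contDiff.1 f.contMDiff
  obtain ⟨N0, hN0, hA0, hN0f⟩ := eventually_nhdsSet_iff_exists.1 hf0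
  obtain ⟨N1, hN1, hA1, hN1f⟩ := eventually_nhdsSet_iff_exists.1 hf1
  have hc : ContDiff ℝ 2 (fun w => ((f w : ℝ) : ℂ)) := (Complex.ofRealCLM.contDiff).comp hfs
  have hfc : Continuous (fderiv ℝ (fun w => ((f w : ℝ) : ℂ))) :=
    hc.continuous_fderiv (by norm_num)
  have hdc : Continuous (ZFM.dbar (fun w => ((f w : ℝ) : ℂ))) := by
    unfold ZFM.dbar
    have h1 : Continuous (fun z => fderiv ℝ (fun w => ((f w : ℝ) : ℂ)) z 1) :=
      hfc.clm_apply continuous_const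
    have h2 : Continuous (fun z => fderiv ℝ (fun w => ((f w : ℝ) : ℂ)) z I) :=
      hfc.clm_apply continuous_const
    exact (h1.add (continuous_const.mul h2)).div_const 2
  obtain ⟨C1, hC1⟩ := (isCompact_closedBall (0 : ℂ) R).exists_bound_of_continuousOn
    hdc.continuousOn
  exact ⟨fun z => f z, hfs, fun z => (hf z).1, fun z => (hf z).2,
    ⟨N0, hN0, hA0, hN0f⟩, ⟨N1, hN1, hA1, hN1f⟩, max 1 C1, le_max_left _ _,
    fun z hz => (hC1 z (ball_subset_closedBall hz)).trans (le_max_right _ _)⟩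

/-- Every `f ∈ M(L)` is chordally approximable by polynomials. -/
theorem approx (hL : IsCompact L) (hLc : IsConnected Lᶜ) (hf : InM L f) (ε : ℝ) (hε : 0 < ε) :
    ∃ P : ℂ[X], ∀ z ∈ L, chi (P.eval z : ℂ) (f z) < ε := by
  obtain ⟨C, hC, hglue⟩ := glue_poly
  obtain ⟨R, hR, hLR⟩ : ∃ R : ℝ, 0 < R ∧ L ⊆ ball 0 R := by
    obtain ⟨r, hr⟩ := hL.isBounded.subset_ball 0
    exact ⟨max r 1, lt_of_lt_of_le one_pos (le_max_right _ _),
      hr.trans (ball_subset_ball (le_max_left _ _))⟩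
  set A0 : Set ℂ := {z | z ∈ L ∧ vv (f z) ≤ 4 / 5} with hA0
  set A1 : Set ℂ := {z | z ∈ L ∧ 9 / 10 ≤ vv (f z)} with hA1
  obtain ⟨t, ht, ht0, ht1, ⟨N0, hN0, hAN0, htN0⟩, ⟨N1, hN1, hAN1, htN1⟩, M, hM, htM⟩ :=
    cutoff A0 A1 (kf_compact hL hf _) (ke_compact hL hf _) (by
      rw [Set.disjoint_left]
      intro z hz hz'
      have h1 := hz.2
      have h2 := hz'.2
      linarith) R
  set F : ℂ → ℂ := fun w => toC (f w) with hF
  -- the small parameter
  set D : ℝ := C * (R + 1) * M + 1 with hD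
  have hDpos : 0 < D := by positivity
  set τ : ℝ := min 1 (ε / (2 * D)) with hτdef
  have hτ : 0 < τ := by
    rw [hτdef]
    exact lt_min one_pos (by positivity)
  have hτ1 : τ ≤ 1 := min_le_left _ _
  have hτε : D * τ < ε := by
    have h1 : τ ≤ ε / (2 * D) := min_le_right _ _
    calc D * τ ≤ D * (ε / (2 * D)) := mul_le_mul_of_nonneg_left h1 hDpos.le
      _ = ε / 2 := by field_simp
      _ < ε := by linarith
  -- the polynomial on `{|f| ≤ 3}`
  set KF : Set ℂ := {z | z ∈ L ∧ vv (f z) ≤ 9 / 10} with hKF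
  have hKFc : IsCompact KF := kf_compact hL hf _
  have hKFL : KF ⊆ L := fun z hz => hz.1
  have hKFfin : ∀ z ∈ KF, f z ≠ ∞ := by
    intro z hz
    apply ne_infty_of_vv
    linarith [hz.2]
  obtain ⟨r, hr⟩ := ZFM.mergelyan hKFc (kf_conn hL hLc hf _ (by norm_num) (by norm_num)) F
    (fun z hz => (hf.contWithin (hKFL hz) (hKFfin z hz)).mono hKFL)
    (fun z hz => (hf.diffAt (interior_mono hKFL hz)
      (hKFfin z (interior_subset hz))).differentiableWithinAt) (τ / 2) (by positivity)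
  -- the rational function on `{|f| ≥ 1}`
  obtain ⟨p, q, hpq⟩ := inv_approx hL hLc hf (τ / 72) (by positivity)
  set g1 : ℂ → ℂ := fun z => q.eval z / p.eval z with hg1
  set g0 : ℂ → ℂ := fun z => r.eval z + (t z : ℂ) * (g1 z - r.eval z) with hg0
  have hg1F : ∀ z ∈ L, 1 / 2 ≤ vv (f z) → vv (f z) ≤ 9 / 10 → ‖g1 z - F z‖ ≤ τ / 4 := by
    intro z hz h1 h2
    have hfz := hKFfin z ⟨hz, h2⟩
    obtain ⟨_, _, h3⟩ := hpq z hz h1
    have hF0 : F z ≠ 0 := by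
      intro h
      rw [vv_eq_zero hfz h] at h1
      norm_num at h1
    have hF3 : ‖F z‖ ≤ 3 := by
      have h4 := (vv_le_iff hfz (by norm_num)).1 h2
      rw [show (9 / 10 : ℝ) / (1 - 9 / 10) = 3 ^ 2 by norm_num] at h4
      exact (sq_le_sq₀ (norm_nonneg _) (by norm_num)).1 h4
    have h5 := inv_close hF0 hF3 (by linarith) h3
    rw [inv_div] at h5
    calc _ ≤ 18 * (τ / 72) := h5
      _ = τ / 4 := by ring
  -- the domain
  set Ω : Set ℂ := (N0 ∪ (N1 ∩ {z | p.eval z ≠ 0}) ∪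
    {z | p.eval z ≠ 0 ∧ ‖g1 z - r.eval z‖ < τ}) ∩ ball 0 R with hΩ
  have hpo : IsOpen {z | p.eval z ≠ 0} := isOpen_ne_fun p.continuous continuous_const
  have hg1an : ∀ z, p.eval z ≠ 0 → AnalyticAt ℂ g1 z := by
    intro z hz
    have h1 : DifferentiableOn ℂ g1 {z | p.eval z ≠ 0} := by
      intro w hw
      exact ((q.differentiable w).div (p.differentiable w) hw).differentiableWithinAt
    exact h1.analyticAt (hpo.mem_nhds hz)
  have hran : ∀ z, AnalyticAt ℂ (fun z => r.eval z) z := fun z => 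
    (r.differentiable.analyticAt z)
  have h3o : IsOpen {z | p.eval z ≠ 0 ∧ ‖g1 z - r.eval z‖ < τ} := by
    rw [isOpen_iff_mem_nhds]
    intro z hz
    have h1 : ContinuousAt (fun z => ‖g1 z - r.eval z‖) z :=
      ((hg1an z hz.1).continuousAt.sub (hran z).continuousAt).norm
    filter_upwards [hpo.mem_nhds hz.1, h1.eventually (gt_mem_nhds hz.2)] with w hw1 hw2
    exact ⟨hw1, hw2⟩
  have hΩo : IsOpen Ω := ((hN0.union (hN1.inter hpo)).union h3o).inter isOpen_ball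
  have hcases : ∀ z ∈ L, (z ∈ N0 ∧ vv (f z) ≤ 4 / 5) ∨
      (z ∈ N1 ∧ p.eval z ≠ 0 ∧ 9 / 10 ≤ vv (f z)) ∨
      (p.eval z ≠ 0 ∧ 1 / 2 ≤ vv (f z) ∧ vv (f z) ≤ 9 / 10) := by
    intro z hz
    rcases le_or_gt (vv (f z)) (4 / 5) with h | h
    · exact Or.inl ⟨hAN0 ⟨hz, h⟩, h⟩
    · right
      obtain ⟨h1, _, _⟩ := hpq z hz (by linarith)
      rcases le_or_gt (9 / 10) (vv (f z)) with h' | h'
      · exact Or.inl ⟨hAN1 ⟨hz, h'⟩, h1, h'⟩
      · exact Or.inr ⟨h1, by linarith, h'.le⟩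
  have hLΩ : L ⊆ Ω := by
    intro z hz
    refine ⟨?_, hLR hz⟩
    rcases hcases z hz with ⟨h, _⟩ | ⟨h, h', _⟩ | ⟨h, h', h''⟩
    · exact Or.inl (Or.inl h)
    · exact Or.inl (Or.inr ⟨h, h'⟩)
    · refine Or.inr ⟨h, ?_⟩
      have h1 := hg1F z hz h' h''
      have h2 := hr z ⟨hz, h''⟩
      have e : g1 z - r.eval z = (g1 z - F z) - (r.eval z - F z) := by ring
      rw [e]
      refine lt_of_le_of_lt (norm_sub_le _ _) ?_
      linarith
  -- three local descriptions of `g0`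
  have htC : ContDiff ℝ 2 (fun w => ((t w : ℝ) : ℂ)) := (Complex.ofRealCLM.contDiff).comp ht
  have hR1 : ∀ (a : ℂ → ℂ) (z : ℂ), AnalyticAt ℂ a z → ContDiffAt ℝ 1 a z := fun a z ha =>
    (ha.contDiffAt.restrict_scalars ℝ)
  have hloc : ∀ z ∈ Ω, ContDiffAt ℝ 1 g0 z ∧ ‖ZFM.dbar g0 z‖ ≤ M * τ := by
    intro z hz
    have hMτ : 0 ≤ M * τ := by positivity
    rcases hz.1 with (h | h) | h
    · have hev : g0 =ᶠ[𝓝 z] fun z => r.eval z := by
        filter_upwards [hN0.mem_nhds h] with w hw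
        rw [hg0]
        simp only
        rw [htN0 w hw, Complex.ofReal_zero, zero_mul, add_zero]
      refine ⟨(hR1 _ _ (hran z)).congr_of_eventuallyEq hev, ?_⟩
      rw [ZFM.J_h1.dbar_congr hev, ZFM.J_h1.dbar_an (hran z), norm_zero]
      exact hMτ
    · have hev : g0 =ᶠ[𝓝 z] g1 := by
        filter_upwards [hN1.mem_nhds h.1] with w hw
        rw [hg0]
        simp only
        rw [htN1 w hw, Complex.ofReal_one]
        ring
      refine ⟨(hR1 _ _ (hg1an z h.2)).congr_of_eventuallyEq hev, ?_⟩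
      rw [ZFM.J_h1.dbar_congr hev, ZFM.J_h1.dbar_an (hg1an z h.2), norm_zero]
      exact hMτ
    · have han : AnalyticAt ℂ (fun z => g1 z - r.eval z) z := (hg1an z h.1).sub (hran z)
      have hd1 : DifferentiableAt ℝ (fun w => ((t w : ℝ) : ℂ)) z :=
        (htC.differentiable (by norm_num)) z
      have hd2 : DifferentiableAt ℝ (fun z => g1 z - r.eval z) z := ZFM.J_h1.an_diff han
      refine ⟨(hR1 _ _ (hran z)).add
        (((htC.of_le (by norm_num)).contDiffAt).mul (hR1 _ _ han)), ?_⟩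
      have e1 : ZFM.dbar g0 z = ZFM.dbar (fun z => r.eval z) z +
          ZFM.dbar (fun w => ((t w : ℝ) : ℂ) * (g1 w - r.eval w)) z :=
        ZFM.J_h1.dbar_add' (ZFM.J_h1.an_diff (hran z)) (hd1.mul hd2)
      rw [e1, ZFM.J_h1.dbar_mul' hd1 hd2, ZFM.J_h1.dbar_an (hran z), ZFM.J_h1.dbar_an han, zero_add,
        mul_zero, add_zero, norm_mul]
      exact mul_le_mul (htM z hz.2) h.2.le (norm_nonneg _) (by positivity)
  obtain ⟨P, hP⟩ := hglue L Ω g0 R (M * τ) hL hLc hΩo hLΩ hR hLR (by positivity)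
    (fun z hz => (hloc z hz).1) (fun z hz => (hloc z hz).2)
  refine ⟨P, fun z hz => ?_⟩
  have hmain : chi (g0 z : ℂ) (f z) < τ := by
    rcases hcases z hz with ⟨h, h'⟩ | ⟨h, h', h''⟩ | ⟨h, h', h''⟩
    · have e : g0 z = r.eval z := by
        rw [hg0]
        simp only
        rw [htN0 z h, Complex.ofReal_zero, zero_mul, add_zero]
      have hzF : z ∈ KF := ⟨hz, by linarith⟩
      rw [e, eq_coe_toC (hKFfin z hzF)]
      refine lt_of_le_of_lt (chi_le_norm _ _) ?_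
      have := hr z hzF
      calc _ < τ / 2 := this
        _ < τ := by linarith
    · have e : g0 z = g1 z := by
        rw [hg0]
        simp only
        rw [htN1 z h, Complex.ofReal_one]
        ring
      obtain ⟨h1, h2, h3⟩ := hpq z hz (by linarith)
      rw [e]
      refine lt_of_le_of_lt (chi_le_inv _ _ (div_ne_zero h2 h1) (ne_zero_of_vv (by linarith))) ?_
      rw [hg1]
      simp only
      rw [inv_div]
      linarith
    · have hzF : z ∈ KF := ⟨hz, h''⟩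
      rw [eq_coe_toC (hKFfin z hzF)]
      refine lt_of_le_of_lt (chi_le_norm _ _) ?_
      have e : g0 z - toC (f z) = ((1 - t z : ℝ) : ℂ) * (r.eval z - F z) +
          (t z : ℂ) * (g1 z - F z) := by
        rw [hg0, hF]
        push_cast
        ring
      rw [e]
      have h1 := hg1F z hz h' h''
      have h2 := hr z hzF
      have n1 : ‖((1 - t z : ℝ) : ℂ)‖ ≤ 1 := by
        rw [Complex.norm_real, Real.norm_eq_abs, abs_le]
        constructor <;> linarith [ht0 z, ht1 z]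
      have n2 : ‖(t z : ℂ)‖ ≤ 1 := by
        rw [Complex.norm_real, Real.norm_eq_abs, abs_le]
        constructor <;> linarith [ht0 z, ht1 z]
      calc _ ≤ ‖((1 - t z : ℝ) : ℂ) * (r.eval z - F z)‖ + ‖(t z : ℂ) * (g1 z - F z)‖ :=
            norm_add_le _ _
        _ ≤ 1 * ‖r.eval z - F z‖ + 1 * ‖g1 z - F z‖ := by
            rw [norm_mul, norm_mul]
            exact add_le_add (mul_le_mul_of_nonneg_right n1 (norm_nonneg _))
              (mul_le_mul_of_nonneg_right n2 (norm_nonneg _))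
        _ < τ := by linarith
  calc chi (P.eval z : ℂ) (f z) ≤ chi (P.eval z : ℂ) (g0 z : ℂ) + chi (g0 z : ℂ) (f z) :=
        chi_triangle _ _ _
    _ < C * (R + 1) * (M * τ) + τ := by
        have h1 := (chi_le_norm (P.eval z) (g0 z)).trans (hP z hz)
        exact add_lt_add_of_le_of_lt h1 hmain
    _ = D * τ := by rw [hD]; ring
    _ < ε := hτε

end Pool.Agent.Q163.CM
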