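import Pool.Agent.Q163.CM.Core3

/-!
# Chordal limits of polynomials lie in `M(L)`
-/

open Complex Filter Topology Set Metric
open scoped OnePoint Polynomial

namespace Pool.Agent.Q163.CM

variable {L : Set ℂ} {f : ℂ → OnePoint ℂ}

lemma continuous_sg : Continuous sg :=
  (WithLp.prod_continuous_toLp 2 ℂ ℝ).comp (continuous_uu.prodMk continuous_vv)

lemma sg_injective : Function.Injective sg := by
  intro x y h
  have h1 : chi x y = 0 := by rw [chi_eq_dist, h, dist_self]
  induction x using OnePoint.rec with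
  | infty =>
    induction y using OnePoint.rec with
    | infty => rfl
    | coe b =>
      rw [chi_ic] at h1
      have : 0 < 1 / √(1 + ‖b‖ ^ 2) := by positivity
      linarith
  | coe a =>
    induction y using OnePoint.rec with
    | infty =>
      rw [chi_ci] at h1
      have : 0 < 1 / √(1 + ‖a‖ ^ 2) := by positivity
      linarith
    | coe b =>
      rw [chi_cc, div_eq_zero_iff] at h1
      rcases h1 with h1 | h1
      · rw [norm_eq_zero, sub_eq_zero] at h1
        rw [h1]
      · have : 0 < √(1 + ‖a‖ ^ 2) * √(1 + ‖b‖ ^ 2) := by positivity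
        linarith

lemma sg_emb : IsClosedEmbedding sg := continuous_sg.isClosedEmbedding sg_injective

lemma vv_sub_le (x y : OnePoint ℂ) : |vv x - vv y| ≤ chi x y := by
  apply abs_le_of_sq_le_sq _ (chi_nonneg x y)
  rw [chi_sq]
  have := sq_nonneg ‖uu x - uu y‖
  linarith

lemma sqrt_le_two {a : ℂ} (h : 1 / 2 ≤ vv (a : OnePoint ℂ)) : 0 < ‖a‖ ∧ 1 + ‖a‖ ^ 2 ≤ 2 * ‖a‖ ^ 2 := by
  rw [vv_coe, le_div_iff₀ (by positivity)] at h
  constructor
  · by_contra hcon
    have : ‖a‖ = 0 := le_antisymm (not_lt.1 hcon) (norm_nonneg _)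
    rw [this] at h
    norm_num at h
  · linarith

lemma inv_le_chi (x y : OnePoint ℂ) (hx : 1 / 2 ≤ vv x) (hy : 1 / 2 ≤ vv y) :
    ‖(toC x)⁻¹ - (toC y)⁻¹‖ ≤ 2 * chi x y := by
  have key : ∀ a : ℂ, 1 / 2 ≤ vv (a : OnePoint ℂ) → ‖a⁻¹‖ ≤ 2 * (1 / √(1 + ‖a‖ ^ 2)) := by
    intro a ha
    obtain ⟨h1, h2⟩ := sqrt_le_two ha
    rw [norm_inv, ← one_div, mul_one_div, div_le_div_iff₀ h1 (by positivity), one_mul]
    apply Real.sqrt_le_iff.2
    constructor
    · positivity
    · nlinarith
  induction x using OnePoint.rec with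
  | infty =>
    induction y using OnePoint.rec with
    | infty => rw [chi_ii]; simp
    | coe b =>
      rw [chi_ic, toC_infty, inv_zero, zero_sub, norm_neg, toC_coe]
      exact key b hy
  | coe a =>
    induction y using OnePoint.rec with
    | infty =>
      rw [chi_ci, toC_infty, inv_zero, sub_zero, toC_coe]
      exact key a hx
    | coe b =>
      obtain ⟨h1, h2⟩ := sqrt_le_two hx
      obtain ⟨h3, h4⟩ := sqrt_le_two hy
      have ha : a ≠ 0 := norm_pos_iff.1 h1
      have hb : b ≠ 0 := norm_pos_iff.1 h3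
      rw [chi_cc, toC_coe, toC_coe]
      have e : a⁻¹ - b⁻¹ = -(a - b) / (a * b) := by
        field_simp
        ring
      rw [e, norm_div, norm_neg, norm_mul, ← mul_div_assoc, div_le_div_iff₀ (by positivity)
        (by positivity), mul_comm 2 ‖a - b‖, mul_assoc]
      apply mul_le_mul_of_nonneg_left _ (norm_nonneg _)
      rw [← Real.sqrt_mul (by positivity)]
      apply Real.sqrt_le_iff.2
      constructor
      · positivity
      · calc (1 + ‖a‖ ^ 2) * (1 + ‖b‖ ^ 2) ≤ (2 * ‖a‖ ^ 2) * (2 * ‖b‖ ^ 2) :=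
              mul_le_mul h2 h4 (by positivity) (by positivity)
          _ = (2 * (‖a‖ * ‖b‖)) ^ 2 := by ring

lemma norm_le_chi (a b : ℂ) {c : ℝ} (hc : c < 1) (ha : vv (a : OnePoint ℂ) ≤ c)
    (hb : vv (b : OnePoint ℂ) ≤ c) : ‖a - b‖ ≤ chi a b / (1 - c) := by
  have key : ∀ a : ℂ, vv (a : OnePoint ℂ) ≤ c → (1 + ‖a‖ ^ 2) * (1 - c) ≤ 1 := by
    intro a ha
    rw [vv_coe, div_le_iff₀ (by positivity)] at ha
    nlinarith
  have h1 := key a ha
  have h2 := key b hb
  have hc' : 0 < 1 - c := by linarith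
  rw [le_div_iff₀ hc', chi_cc, le_div_iff₀ (by positivity), mul_assoc]
  apply mul_le_of_le_one_right (norm_nonneg _)
  rw [← Real.sqrt_mul (by positivity)]
  have h3 : √((1 + ‖a‖ ^ 2) * (1 + ‖b‖ ^ 2)) ≤ 1 / (1 - c) := by
    apply Real.sqrt_le_iff.2
    constructor
    · positivity
    · rw [div_pow, one_pow, le_div_iff₀ (by positivity)]
      calc (1 + ‖a‖ ^ 2) * (1 + ‖b‖ ^ 2) * (1 - c) ^ 2 =
            ((1 + ‖a‖ ^ 2) * (1 - c)) * ((1 + ‖b‖ ^ 2) * (1 - c)) := by ring
        _ ≤ 1 * 1 := mul_le_mul h1 h2 (by positivity) (by positivity)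
        _ = 1 := one_mul 1
  calc (1 - c) * √((1 + ‖a‖ ^ 2) * (1 + ‖b‖ ^ 2)) ≤ (1 - c) * (1 / (1 - c)) :=
        mul_le_mul_of_nonneg_left h3 hc'.le
    _ = 1 := by field_simp

/-- A chordal limit of polynomials is in `M(L)`. -/
theorem limit_mem (P : ℕ → ℂ[X])
    (hP : ∀ ε > 0, ∃ N, ∀ n ≥ N, ∀ z ∈ L, chi ((P n).eval z : ℂ) (f z) < ε) : InM L f := by
  have hc : ContinuousOn f L := by
    rw [sg_emb.isInducing.continuousOn_iff]
    apply continuousOn_of_uniform_approx_of_continuousOn
    intro u hu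
    obtain ⟨ε, hε, hεu⟩ := Metric.mem_uniformity_dist.1 hu
    obtain ⟨N, hN⟩ := hP ε hε
    refine ⟨fun z => sg ((P N).eval z : ℂ), ?_, fun y hy => ?_⟩
    · exact (continuous_sg.comp
        (OnePoint.continuous_coe.comp (P N).continuous)).continuousOn
    · apply hεu
      have := hN N le_rfl y hy
      rw [chi_eq_dist, dist_comm] at this
      exact this
  have hv : ∀ z ∈ interior L, ContinuousAt (fun z => vv (f z)) z := fun z hz =>
    (continuous_vv.comp_continuousOn hc).continuousAt (mem_interior_iff_mem_nhds.1 hz)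
  -- points with value `∞`
  have h1 : ∀ z0 ∈ interior L, f z0 = ∞ → ∀ᶠ z in 𝓝 z0, f z = ∞ := by
    intro z0 hz0 hf0
    have hev : ∀ᶠ z in 𝓝 z0, z ∈ L ∧ 3 / 4 < vv (f z) := by
      have h2 : ∀ᶠ z in 𝓝 z0, 3 / 4 < vv (f z) := by
        apply (hv z0 hz0).eventually
        apply lt_mem_nhds
        simp only
        rw [hf0, vv_infty]
        norm_num
      filter_upwards [mem_interior_iff_mem_nhds.1 hz0, h2] with z h3 h4
      exact ⟨h3, h4⟩
    obtain ⟨ρ, hρ, hB⟩ := Metric.eventually_nhds_iff_ball.1 hev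
    set B := ball z0 ρ with hBd
    set H : ℂ → ℂ := fun z => (toC (f z))⁻¹ with hH
    have hclose : ∀ ε > 0, ∃ N, ∀ n ≥ N, ∀ z ∈ B, (P n).eval z ≠ 0 ∧
        ‖((P n).eval z)⁻¹ - H z‖ < ε := by
      intro ε hε
      obtain ⟨N, hN⟩ := hP (min (1 / 4) (ε / 4)) (by positivity)
      refine ⟨N, fun n hn z hz => ?_⟩
      obtain ⟨hzL, hzv⟩ := hB z hz
      have hchi := hN n hn z hzL
      have h3 := vv_sub_le ((P n).eval z : ℂ) (f z)
      have h4 : 1 / 2 ≤ vv (((P n).eval z : ℂ) : OnePoint ℂ) := by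
        have h5 := (abs_le.1 h3).1
        have h6 := lt_of_lt_of_le hchi (min_le_left _ _)
        linarith
      refine ⟨norm_pos_iff.1 (sqrt_le_two h4).1, ?_⟩
      have h5 := inv_le_chi _ _ h4 (by linarith : 1 / 2 ≤ vv (f z))
      rw [toC_coe] at h5
      have h6 := lt_of_lt_of_le hchi (min_le_right _ _)
      calc _ ≤ 2 * chi ((P n).eval z : ℂ) (f z) := h5
        _ < ε := by linarith
    have hlim : TendstoLocallyUniformlyOn (fun n z => ((P n).eval z)⁻¹) H atTop B := by
      apply TendstoUniformlyOn.tendstoLocallyUniformlyOn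
      rw [Metric.tendstoUniformlyOn_iff]
      intro ε hε
      obtain ⟨N, hN⟩ := hclose ε hε
      filter_upwards [eventually_ge_atTop N] with n hn z hz
      rw [dist_comm, dist_eq_norm]
      exact (hN n hn z hz).2
    have hHd : DifferentiableOn ℂ H B := by
      refine hlim.differentiableOn ?_ isOpen_ball
      obtain ⟨N, hN⟩ := hclose 1 one_pos
      filter_upwards [eventually_ge_atTop N] with n hn z hz
      exact ((P n).differentiable z).inv (hN n hn z hz).1 |>.differentiableWithinAt
    have han : AnalyticAt ℂ H z0 := hHd.analyticAt (ball_mem_nhds z0 hρ)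
    rcases han.eventually_eq_zero_or_eventually_ne_zero with h | h
    · filter_upwards [h, ball_mem_nhds z0 hρ] with z hz hzB
      by_contra hcon
      have := vv_eq_zero hcon (inv_eq_zero.1 hz)
      have h2 := (hB z hzB).2
      linarith
    · exfalso
      rw [eventually_nhdsWithin_iff] at h
      obtain ⟨r0, hr0, hr0B⟩ := Metric.eventually_nhds_iff_ball.1 h
      set r := min (r0 / 2) (ρ / 2) with hr
      have hrpos : 0 < r := by positivity
      have hr1 : r < r0 := lt_of_le_of_lt (min_le_left _ _) (by linarith)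
      have hr2 : r < ρ := lt_of_le_of_lt (min_le_right _ _) (by linarith)
      have hSB : sphere z0 r ⊆ B := fun z hz => by
        rw [mem_sphere] at hz
        rw [hBd, mem_ball, hz]
        exact hr2
      obtain ⟨x, hx, hmin⟩ := (isCompact_sphere z0 r).exists_isMinOn
        (NormedSpace.sphere_nonempty.2 hrpos.le) ((hHd.continuousOn.mono hSB).norm)
      set m := ‖H x‖ with hm
      have hm0 : 0 < m := by
        rw [hm, norm_pos_iff]
        apply hr0B x
        · rw [mem_sphere] at hx
          rw [mem_ball, hx]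
          exact hr1
        · intro h'
          rw [mem_singleton_iff] at h'
          rw [h', mem_sphere, dist_self] at hx
          linarith
      obtain ⟨N1, hN1⟩ := hclose (m / 2) (by positivity)
      have hpos : 0 < 1 / √(1 + (2 / m) ^ 2) := by positivity
      obtain ⟨N2, hN2⟩ := hP _ hpos
      set n := max N1 N2 with hn
      have hbd : ∀ z ∈ sphere z0 r, ‖(P n).eval z‖ ≤ 2 / m := by
        intro z hz
        obtain ⟨h2, h3⟩ := hN1 n (le_max_left _ _) z (hSB hz)
        have h4 : m ≤ ‖H z‖ := hmin hz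
        have h5 : m / 2 ≤ ‖((P n).eval z)⁻¹‖ := by
          have : ‖H z‖ ≤ ‖((P n).eval z)⁻¹‖ + ‖((P n).eval z)⁻¹ - H z‖ := by
            have e : H z = ((P n).eval z)⁻¹ - (((P n).eval z)⁻¹ - H z) := by ring
            calc ‖H z‖ = ‖((P n).eval z)⁻¹ - (((P n).eval z)⁻¹ - H z)‖ := by rw [← e]
              _ ≤ _ := norm_sub_le _ _
          linarith
        rw [norm_inv] at h5
        have h6 : 0 < ‖(P n).eval z‖ := norm_pos_iff.2 h2
        have h7 := (le_inv_comm₀ (by positivity) h6).1 h5
        rwa [inv_div] at h7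
      have hz0b : ‖(P n).eval z0‖ ≤ 2 / m := by
        refine Complex.norm_le_of_forall_mem_frontier_norm_le (U := ball z0 r) isBounded_ball
          (f := fun z => (P n).eval z) ?_ ?_ (subset_closure (mem_ball_self hrpos))
        · exact (P n).differentiable.diffContOnCl
        · intro z hz
          rw [frontier_ball z0 hrpos.ne'] at hz
          exact hbd z hz
      have h2 := hN2 n (le_max_right _ _) z0 (interior_subset hz0)
      rw [hf0, chi_ci] at h2
      have h3 : √(1 + ‖(P n).eval z0‖ ^ 2) ≤ √(1 + (2 / m) ^ 2) := by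
        apply Real.sqrt_le_sqrt
        have := pow_le_pow_left₀ (norm_nonneg _) hz0b 2
        linarith
      have h4 : 1 / √(1 + (2 / m) ^ 2) ≤ 1 / √(1 + ‖(P n).eval z0‖ ^ 2) :=
        one_div_le_one_div_of_le (by positivity) h3
      linarith
  -- points with finite value
  have h2 : ∀ z0 ∈ interior L, f z0 ≠ ∞ → (∀ᶠ z in 𝓝 z0, f z ≠ ∞) ∧
      DifferentiableAt ℂ (fun z => toC (f z)) z0 := by
    intro z0 hz0 hf0
    have hv0 := vv_lt_one hf0
    set c := (1 + vv (f z0)) / 2 with hcd
    have hc1 : c < 1 := by rw [hcd]; linarith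
    have hc0 : vv (f z0) < c := by rw [hcd]; linarith
    have hev : ∀ᶠ z in 𝓝 z0, z ∈ L ∧ vv (f z) < c := by
      filter_upwards [mem_interior_iff_mem_nhds.1 hz0, (hv z0 hz0).eventually (gt_mem_nhds hc0)]
        with z h3 h4
      exact ⟨h3, h4⟩
    obtain ⟨ρ, hρ, hB⟩ := Metric.eventually_nhds_iff_ball.1 hev
    have hfin : ∀ z ∈ ball z0 ρ, f z ≠ ∞ := fun z hz =>
      ne_infty_of_vv ((hB z hz).2.trans hc1)
    refine ⟨?_, ?_⟩
    · filter_upwards [ball_mem_nhds z0 hρ] with z hz
      exact hfin z hz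
    · set c2 := (1 + c) / 2 with hc2
      have hc21 : c2 < 1 := by rw [hc2]; linarith
      have hc2c : 0 < c2 - c := by rw [hc2]; linarith
      have hlim : TendstoLocallyUniformlyOn (fun n z => (P n).eval z) (fun z => toC (f z))
          atTop (ball z0 ρ) := by
        apply TendstoUniformlyOn.tendstoLocallyUniformlyOn
        rw [Metric.tendstoUniformlyOn_iff]
        intro ε hε
        have hpos : 0 < ε * (1 - c2) := mul_pos hε (by linarith)
        obtain ⟨N, hN⟩ := hP (min (c2 - c) (ε * (1 - c2))) (lt_min hc2c hpos)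
        filter_upwards [eventually_ge_atTop N] with n hn z hz
        rw [dist_comm, dist_eq_norm]
        have hchi := hN n hn z (hB z hz).1
        have h3 := vv_sub_le ((P n).eval z : ℂ) (f z)
        have h4 := lt_of_lt_of_le hchi (min_le_left _ _)
        have h5 := lt_of_lt_of_le hchi (min_le_right _ _)
        have h6 := (abs_le.1 h3).2
        have h7 := (hB z hz).2
        have e := eq_coe_toC (hfin z hz)
        rw [e] at h5 h6 h7 h4
        have h8 := norm_le_chi ((P n).eval z) (toC (f z)) hc21 (by linarith) (by linarith)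
        refine lt_of_le_of_lt h8 ?_
        rw [div_lt_iff₀ (by linarith)]
        exact h5
      have hd := hlim.differentiableOn (Filter.Eventually.of_forall fun n =>
        (P n).differentiable.differentiableOn) isOpen_ball
      exact hd.differentiableAt (ball_mem_nhds z0 hρ)
  refine ⟨hc, fun z hz => ?_⟩
  have hAo : IsOpen {w | w ∈ interior L ∧ f w = ∞} := by
    rw [isOpen_iff_mem_nhds]
    intro w hw
    filter_upwards [h1 w hw.1 hw.2, isOpen_interior.mem_nhds hw.1] with x hx hx'
    exact ⟨hx', hx⟩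
  have hBo : IsOpen {w | w ∈ interior L ∧ f w ≠ ∞} := by
    rw [isOpen_iff_mem_nhds]
    intro w hw
    filter_upwards [(h2 w hw.1 hw.2).1, isOpen_interior.mem_nhds hw.1] with x hx hx'
    exact ⟨hx', hx⟩
  have hVs : connectedComponentIn (interior L) z ⊆ interior L := connectedComponentIn_subset _ _
  rcases (isPreconnected_connectedComponentIn (x := z) (F := interior L)).subset_or_subset
    hAo hBo (Set.disjoint_left.2 fun w hw hw' => hw'.2 hw.2) (fun w hw => by
      by_cases h : f w = ∞
      · exact Or.inl ⟨hVs hw, h⟩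
      · exact Or.inr ⟨hVs hw, h⟩) with h | h
  · exact Or.inl fun w hw => (h hw).2
  · refine Or.inr ⟨fun w => toC (f w), fun w hw => ?_, fun w hw => eq_coe_toC (h hw).2⟩
    exact ((h2 w (h hw).1 (h hw).2).2).differentiableWithinAt

/-- The set of chordal uniform limits of polynomials is `M(L)`. -/
theorem main (hL : IsCompact L) (hLc : IsConnected Lᶜ) :
    (∃ P : ℕ → ℂ[X], ∀ ε > 0, ∃ N, ∀ n ≥ N, ∀ z ∈ L, chi ((P n).eval z : ℂ) (f z) < ε) ↔
      InM L f := by
  constructor
  · rintro ⟨P, hP⟩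
    exact limit_mem P hP
  · intro hf
    choose P hP using fun n : ℕ => approx hL hLc hf (1 / ((n : ℝ) + 1)) (by positivity)
    refine ⟨P, fun ε hε => ?_⟩
    obtain ⟨N, hN⟩ := exists_nat_gt (1 / ε)
    refine ⟨N, fun n hn z hz => (hP n z hz).trans ?_⟩
    have hnN : (N : ℝ) ≤ n := by exact_mod_cast hn
    rw [div_lt_iff₀ hε] at hN
    rw [div_lt_iff₀ (by positivity)]
    nlinarith

end Pool.Agent.Q163.CM
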