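import Pool.Agent.H801R2.CX.Borsuk

/-!
# Disjoint closed discs converging to a point have connected complement
-/

open Complex Filter Topology Set Metric

namespace Pool.Agent.Q163.CM

lemma discs_closed (c : ℕ → ℂ) (r : ℕ → ℝ) (P : ℂ)
    (hP : ∀ ε > 0, ∃ N, ∀ n ≥ N, closedBall (c n) (r n) ⊆ ball P ε) (S : Set ℕ) :
    IsClosed ({P} ∪ ⋃ n ∈ S, closedBall (c n) (r n)) := by
  rw [← isOpen_compl_iff, isOpen_iff_mem_nhds]
  intro z hz
  rw [mem_compl_iff, mem_union, not_or, mem_singleton_iff] at hz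
  obtain ⟨hzP, hz⟩ := hz
  have hd : 0 < dist z P := dist_pos.2 hzP
  obtain ⟨N, hN⟩ := hP (dist z P / 2) (by positivity)
  have h1 : ∀ᶠ w in 𝓝 z, ∀ n ∈ Finset.range N, n ∈ S → w ∉ closedBall (c n) (r n) := by
    rw [Filter.eventually_all_finset]
    intro n _
    by_cases hnS : n ∈ S
    · have h2 : z ∉ closedBall (c n) (r n) := fun h => hz (mem_iUnion₂.2 ⟨n, hnS, h⟩)
      filter_upwards [isClosed_closedBall.isOpen_compl.mem_nhds h2] with w hw _
      exact hw
    · exact Filter.Eventually.of_forall fun w h => absurd h hnS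
  filter_upwards [h1, ball_mem_nhds z (half_pos hd)] with w hw1 hw2 hw
  rcases hw with hw | hw
  · rw [mem_singleton_iff] at hw
    rw [hw, mem_ball, dist_comm] at hw2
    linarith
  · obtain ⟨n, hnS, hn⟩ := mem_iUnion₂.1 hw
    by_cases hnN : n < N
    · exact hw1 n (Finset.mem_range.2 hnN) hnS hn
    · have h3 := hN n (not_lt.1 hnN) hn
      rw [mem_ball] at h3 hw2
      have := dist_triangle z w P
      rw [dist_comm z w] at this
      linarith

lemma discs_compact (c : ℕ → ℂ) (r : ℕ → ℝ) (P : ℂ)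
    (hP : ∀ ε > 0, ∃ N, ∀ n ≥ N, closedBall (c n) (r n) ⊆ ball P ε) :
    IsCompact ({P} ∪ ⋃ n, closedBall (c n) (r n)) := by
  apply Metric.isCompact_of_isClosed_isBounded
  · have := discs_closed c r P hP univ
    simpa using this
  · obtain ⟨N, hN⟩ := hP 1 one_pos
    have h1 : Bornology.IsBounded (ball P 1 ∪ ⋃ n ∈ Finset.range N, closedBall (c n) (r n)) := by
      apply isBounded_ball.union
      rw [Bornology.isBounded_biUnion_finset]
      exact fun n _ => isBounded_closedBall
    refine h1.subset ?_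
    rintro z (hz | hz)
    · left
      rw [mem_singleton_iff] at hz
      rw [hz]
      exact mem_ball_self one_pos
    · obtain ⟨n, hn⟩ := mem_iUnion.1 hz
      by_cases hnN : n < N
      · exact Or.inr (mem_iUnion₂.2 ⟨n, Finset.mem_range.2 hnN, hn⟩)
      · exact Or.inl (hN n (not_lt.1 hnN) hn)

lemma slit_of {z a q : ℂ} (h : ‖z - a‖ < ‖a - q‖) : (z - q) / (a - q) ∈ slitPlane := by
  have h0 : 0 < ‖a - q‖ := (norm_nonneg _).trans_lt h
  have hne : a - q ≠ 0 := norm_pos_iff.1 h0
  have e : (z - q) / (a - q) = 1 + (z - a) / (a - q) := by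
    field_simp
    ring
  rw [e]
  apply Complex.mem_slitPlane_of_norm_lt_one
  rw [norm_div, div_lt_one h0]
  exact h

lemma log_cont {a q : ℂ} (s : Set ℂ) (h : ∀ z ∈ s, ‖z - a‖ < ‖a - q‖) (κ : ℂ) :
    ContinuousOn (fun z => κ + Complex.log ((z - q) / (a - q))) s := by
  apply continuousOn_const.add
  apply ContinuousOn.clog
  · fun_prop
  · intro z hz
    exact slit_of (h z hz)

theorem discs_conn (c : ℕ → ℂ) (r : ℕ → ℝ) (P : ℂ) (hr : ∀ n, 0 < r n)
    (hd : Pairwise fun m n => Disjoint (closedBall (c m) (r m)) (closedBall (c n) (r n)))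
    (hP : ∀ ε > 0, ∃ N, ∀ n ≥ N, closedBall (c n) (r n) ⊆ ball P ε) :
    IsConnected ({P} ∪ ⋃ n, closedBall (c n) (r n))ᶜ := by
  classical
  apply Pool.Agent.H801R2.CX.borsuk (discs_compact c r P hP)
  intro q hq
  rw [mem_union, not_or, mem_singleton_iff, mem_iUnion] at hq
  obtain ⟨hqP, hqD⟩ := hq
  push Not at hqD
  have hPq : P - q ≠ 0 := sub_ne_zero.2 (Ne.symm hqP)
  have hPq0 : 0 < ‖P - q‖ := norm_pos_iff.2 hPq
  have hcq : ∀ n, r n < ‖c n - q‖ := by
    intro n
    have := hqD n
    rw [mem_closedBall, dist_comm, dist_eq_norm, not_le] at this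
    exact this
  have hcq0 : ∀ n, c n - q ≠ 0 := fun n => norm_pos_iff.1 ((hr n).trans (hcq n))
  obtain ⟨N, hN⟩ := hP ‖P - q‖ hPq0
  set lam : ℂ := Complex.log (P - q) with hlam
  set κ : ℕ → ℂ := fun n => lam - Complex.log ((P - q) / (c n - q)) with hκ
  have hexpκ : ∀ n, exp (κ n) = c n - q := by
    intro n
    rw [hκ]
    simp only
    rw [Complex.exp_sub, hlam, Complex.exp_log hPq, Complex.exp_log (div_ne_zero hPq (hcq0 n))]
    have := hcq0 n
    field_simp
  set lT : ℂ → ℂ := fun z => lam + Complex.log ((z - q) / (P - q)) with hlT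
  set lD : ℕ → ℂ → ℂ := fun n z => κ n + Complex.log ((z - q) / (c n - q)) with hlD
  have hlDP : ∀ n, lD n P = lT P := by
    intro n
    rw [hlD, hlT, hκ]
    simp only
    rw [div_self hPq, Complex.log_one]
    ring
  set l : ℂ → ℂ := fun z => if h : ∃ n < N, z ∈ closedBall (c n) (r n) then lD h.choose z
    else lT z with hl
  have hlDn : ∀ n < N, ∀ z ∈ closedBall (c n) (r n), l z = lD n z := by
    intro n hn z hz
    have hex : ∃ n < N, z ∈ closedBall (c n) (r n) := ⟨n, hn, hz⟩
    rw [hl]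
    simp only
    rw [dif_pos hex]
    have h1 := hex.choose_spec
    have h2 : hex.choose = n := by
      by_contra hne
      exact Set.disjoint_left.1 (hd hne) h1.2 hz
    rw [h2]
  set T : Set ℂ := {P} ∪ ⋃ n ∈ {n | N ≤ n}, closedBall (c n) (r n) with hT
  have hlT' : ∀ z ∈ T, l z = lT z := by
    intro z hz
    by_cases hex : ∃ n < N, z ∈ closedBall (c n) (r n)
    · obtain ⟨n, hn, hzn⟩ := hex
      rw [hlDn n hn z hzn]
      rcases hz with hz | hz
      · rw [mem_singleton_iff] at hz
        rw [hz]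
        exact hlDP n
      · exfalso
        obtain ⟨m, hm, hzm⟩ := mem_iUnion₂.1 hz
        have hne : n ≠ m := by
          rintro rfl
          exact absurd hm (not_le.2 hn)
        exact Set.disjoint_left.1 (hd hne) hzn hzm
    · rw [hl]
      simp only
      rw [dif_neg hex]
  have hTb : ∀ z ∈ T, ‖z - P‖ < ‖P - q‖ := by
    rintro z (hz | hz)
    · rw [mem_singleton_iff] at hz
      rw [hz, sub_self, norm_zero]
      exact hPq0
    · obtain ⟨m, hm, hzm⟩ := mem_iUnion₂.1 hz
      have := hN m hm hzm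
      rw [mem_ball, dist_eq_norm] at this
      exact this
  have hDb : ∀ n, ∀ z ∈ closedBall (c n) (r n), ‖z - c n‖ < ‖c n - q‖ := by
    intro n z hz
    rw [mem_closedBall, dist_eq_norm] at hz
    exact lt_of_le_of_lt hz (hcq n)
  have hcov : ({P} ∪ ⋃ n, closedBall (c n) (r n)) =
      T ∪ ⋃ n ∈ Finset.range N, closedBall (c n) (r n) := by
    ext z
    constructor
    · rintro (hz | hz)
      · exact Or.inl (Or.inl hz)
      · obtain ⟨n, hn⟩ := mem_iUnion.1 hz
        by_cases hnN : n < N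
        · exact Or.inr (mem_iUnion₂.2 ⟨n, Finset.mem_range.2 hnN, hn⟩)
        · exact Or.inl (Or.inr (mem_iUnion₂.2 ⟨n, not_lt.1 hnN, hn⟩))
    · rintro ((hz | hz) | hz)
      · exact Or.inl hz
      · obtain ⟨n, _, hn⟩ := mem_iUnion₂.1 hz
        exact Or.inr (mem_iUnion.2 ⟨n, hn⟩)
      · obtain ⟨n, _, hn⟩ := mem_iUnion₂.1 hz
        exact Or.inr (mem_iUnion.2 ⟨n, hn⟩)
  refine ⟨l, ?_, ?_⟩
  · rw [hcov]
    have hTc : ContinuousOn l T := (log_cont T hTb lam).congr hlT'
    have hcl : ∀ M, M ≤ N → ContinuousOn l (⋃ n ∈ Finset.range M, closedBall (c n) (r n)) ∧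
        IsClosed (⋃ n ∈ Finset.range M, closedBall (c n) (r n)) := by
      intro M
      induction M with
      | zero =>
        intro _
        simp
      | succ M ih =>
        intro hM
        obtain ⟨h1, h2⟩ := ih (by omega)
        rw [Finset.range_add_one, Finset.set_biUnion_insert]
        have h3 : ContinuousOn l (closedBall (c M) (r M)) :=
          (log_cont _ (hDb M) (κ M)).congr (hlDn M (by omega))
        exact ⟨h3.union_of_isClosed h1 isClosed_closedBall h2, isClosed_closedBall.union h2⟩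
    obtain ⟨h1, h2⟩ := hcl N le_rfl
    exact hTc.union_of_isClosed h1 (discs_closed c r P hP _) h2
  · rw [hcov]
    rintro z (hz | hz)
    · rw [hlT' z hz, hlT]
      simp only
      rw [Complex.exp_add, hlam, Complex.exp_log hPq,
        Complex.exp_log (Complex.slitPlane_ne_zero (slit_of (hTb z hz)))]
      field_simp
    · obtain ⟨n, hn, hzn⟩ := mem_iUnion₂.1 hz
      rw [hlDn n (Finset.mem_range.1 hn) z hzn, hlD]
      simp only
      rw [Complex.exp_add, hexpκ,
        Complex.exp_log (Complex.slitPlane_ne_zero (slit_of (hDb n z hzn)))]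
      have := hcq0 n
      field_simp

end Pool.Agent.Q163.CM
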